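import Pool.Agent.Lib.P0c8ca5L.ChnC

/-!
# Chains fixed by an element that permutes the factors cyclically

`cg u (W i) = W (i + 1)` for `i : Fin q`. `sg u Q = ⨆ i, cg (u ^ i) Q`; `sig u t = t.image (sg u)`.
`sum_shift`: `s ↦ prj (W 0) s` is a bijection of the chains of p-subgroups of product type fixed by `u` with
the chains of p-subgroups of `W 0` fixed by `u ^ q`, with inverse `sig u`.
`decF`: the decomposition into factors permuted cyclically, indexed by `Fin q`.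
-/

set_option autoImplicit false

namespace Pool.Agent.Lib.P0c8ca5.Ll

open Subgroup Jj Gg Hh

variable {p : ℕ} {A : Type*} [Group A] {Z V : Subgroup A} {q : ℕ} [NeZero q]
  {W : Fin q → Subgroup A}

/-- the product of the conjugates of `Q` under `1, u, …, u ^ (q - 1)` -/
def sg (q : ℕ) (u : A) (Q : Subgroup A) : Subgroup A := ⨆ i : Fin q, cg (u ^ i.val) Q

open Classical in
/-- the chain of the products of the conjugates -/
noncomputable def sig (q : ℕ) (u : A) (t : Finset (Subgroup A)) : Finset (Subgroup A) :=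
  t.image (sg q u)

theorem mem_sig {u : A} {t : Finset (Subgroup A)} {P : Subgroup A} :
    P ∈ sig q u t ↔ ∃ Q ∈ t, sg q u Q = P := by
  classical
  rw [sig, Finset.mem_image]

theorem cg_pow_W {u : A} (hu : ∀ i : Fin q, cg u (W i) = W (i + 1)) (n : ℕ) :
    cg (u ^ n) (W 0) = W (Fin.ofNat q n) := by
  induction n with
  | zero =>
    rw [pow_zero, cg_one]
    congr 1
  | succ n ih =>
    rw [pow_succ', ← cg_cg, ih, hu]
    congr 1
    apply Fin.ext
    rw [Fin.val_add]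
    show (n % q + (1 : Fin q).val) % q = (n + 1) % q
    rcases Nat.eq_or_lt_of_le (NeZero.one_le (n := q)) with h1 | h1
    · subst h1
      rw [Nat.mod_one, Nat.mod_one]
    · have h2 : (1 : Fin q).val = 1 := by
        rw [Fin.val_one']
        exact Nat.mod_eq_of_lt h1
      rw [h2, Nat.mod_add_mod]

theorem cg_pow_val {u : A} (hu : ∀ i : Fin q, cg u (W i) = W (i + 1)) (i : Fin q) :
    cg (u ^ i.val) (W 0) = W i := by
  rw [cg_pow_W hu]
  congr 1
  apply Fin.ext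
  show i.val % q = i.val
  exact Nat.mod_eq_of_lt i.isLt

theorem cg_pow_q {u : A} (hu : ∀ i : Fin q, cg u (W i) = W (i + 1)) :
    cg (u ^ q) (W 0) = W 0 := by
  rw [cg_pow_W hu]
  congr 1
  apply Fin.ext
  show q % q = (0 : Fin q).val
  rw [Nat.mod_self]
  rfl

section shift

variable (h : Dec p Z V W) {u : A} (hu : ∀ i : Fin q, cg u (W i) = W (i + 1))
include h hu

theorem cg_le_W {Q : Subgroup A} (hQ : Q ≤ W 0) (i : Fin q) : cg (u ^ i.val) Q ≤ W i := by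
  rw [← cg_pow_val hu i]
  exact cg_le_cg hQ

theorem sg_inf [Fact p.Prime] [Finite A] {Q : Subgroup A} (hQ : Q ≤ W 0) (hp : IsPGroup p Q)
    (i : Fin q) : sg q u Q ⊓ W i = cg (u ^ i.val) Q :=
  h.iSup_inf (cg_le_W h hu hQ) (fun _ => isPGroup_cg hp) i

theorem sg_inf_zero [Fact p.Prime] [Finite A] {Q : Subgroup A} (hQ : Q ≤ W 0)
    (hp : IsPGroup p Q) : sg q u Q ⊓ W 0 = Q := by
  rw [sg_inf h hu hQ hp 0]
  have : ((0 : Fin q).val) = 0 := rfl
  rw [this, pow_zero, cg_one]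

theorem sg_mem [Fact p.Prime] [Fintype A] {Q : Subgroup A} (hQ : Q ∈ famAll p (W 0)) :
    sg q u Q ∈ Hh.PD p V W := by
  obtain ⟨h1, h2, h3⟩ := mem_famAll.1 hQ
  rw [mem_PD']
  refine ⟨Dec.iSup_le_V h (cg_le_W h hu h1), h.isPGroup_iSup (cg_le_W h hu h1)
    (fun _ => isPGroup_cg h2), ?_, h.pt_iSup (cg_le_W h hu h1) (fun _ => isPGroup_cg h2)⟩
  intro h4
  apply h3
  rw [← sg_inf_zero h hu h1 h2, h4, bot_inf_eq]

omit h hu in
theorem sg_mono {Q R : Subgroup A} (hQR : Q ≤ R) : sg q u Q ≤ sg q u R :=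
  iSup_mono fun _ => cg_le_cg hQR

omit h hu in
theorem sg_normalizer [Finite A] {Q : Subgroup A}
    (hq : u ^ q ∈ Subgroup.normalizer (Q : Set A)) :
    u ∈ Subgroup.normalizer (sg q u Q : Set A) := by
  rw [← cg_eq_self_iff]
  have h1 : cg u (sg q u Q) ≤ sg q u Q := by
    unfold sg
    rw [cg_iSup]
    refine iSup_le fun i => ?_
    rw [cg_cg, ← pow_succ']
    rcases Nat.lt_or_ge (i.val + 1) q with h2 | h2
    · exact le_iSup (fun i : Fin q => cg (u ^ i.val) Q) ⟨i.val + 1, h2⟩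
    · have h3 : i.val + 1 = q := le_antisymm i.isLt h2
      rw [h3, cg_eq_self_iff.2 hq]
      have h4 := le_iSup (fun i : Fin q => cg (u ^ i.val) Q) 0
      have h5 : ((0 : Fin q).val) = 0 := rfl
      rwa [h5, pow_zero, cg_one] at h4
  have hcard : Nat.card ↥(cg u (sg q u Q)) = Nat.card ↥(sg q u Q) := by
    unfold cg
    exact Nat.card_congr
      ((sg q u Q).equivMapOfInjective _ (MulAut.conj u).injective).toEquiv.symm
  exact Subgroup.eq_of_le_of_card_ge h1 hcard.ge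

theorem sg_inf_eq [Fintype A] {Q : Subgroup A} (hQ : Q ∈ Hh.PD p V W)
    (huQ : u ∈ Subgroup.normalizer (Q : Set A)) : sg q u (Q ⊓ W 0) = Q := by
  have h1 : Q = ⨆ i, Q ⊓ W i := (mem_PD'.1 hQ).2.2.2
  conv_rhs => rw [h1]
  unfold sg
  refine iSup_congr fun i => ?_
  have h2 : cg (u ^ i.val) (Q ⊓ W 0) = cg (u ^ i.val) Q ⊓ cg (u ^ i.val) (W 0) := by
    unfold cg
    exact Subgroup.map_inf _ _ _ (MulAut.conj (u ^ i.val)).injective
  rw [h2, cg_pow_val hu i, cg_eq_self_iff.2 (Subgroup.pow_mem _ huQ _)]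

theorem inf_ne_bot [Fintype A] {Q : Subgroup A} (hQ : Q ∈ Hh.PD p V W)
    (huQ : u ∈ Subgroup.normalizer (Q : Set A)) : Q ⊓ W 0 ≠ ⊥ := by
  intro h1
  apply (mem_PD'.1 hQ).2.2.1
  rw [← sg_inf_eq h hu hQ huQ, h1]
  unfold sg
  rw [iSup_eq_bot]
  intro i
  unfold cg
  exact Subgroup.map_bot _

theorem prj_eq_image [Fintype A] {s : Finset (Subgroup A)} (hs : s ∈ Ch (Hh.PD p V W))
    (hus : u ∈ stab ⊤ s) {P : Subgroup A} : P ∈ prj (W 0) s ↔ ∃ Q ∈ s, Q ⊓ W 0 = P := by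
  rw [mem_prj]
  constructor
  · exact fun h1 => h1.2
  · rintro ⟨Q, hQ, rfl⟩
    exact ⟨inf_ne_bot h hu ((InvAux.mem_Ch.1 hs).1 hQ) ((mem_stab_iff.1 hus).2 Q hQ), Q, hQ, rfl⟩

theorem sig_prj [Fintype A] {s : Finset (Subgroup A)} (hs : s ∈ Ch (Hh.PD p V W))
    (hus : u ∈ stab ⊤ s) : sig q u (prj (W 0) s) = s := by
  ext P
  rw [mem_sig]
  constructor
  · rintro ⟨R, hR, rfl⟩
    obtain ⟨Q, hQ, rfl⟩ := (prj_eq_image h hu hs hus).1 hR
    rw [sg_inf_eq h hu ((InvAux.mem_Ch.1 hs).1 hQ) ((mem_stab_iff.1 hus).2 Q hQ)]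
    exact hQ
  · intro hP
    refine ⟨P ⊓ W 0, (prj_eq_image h hu hs hus).2 ⟨P, hP, rfl⟩, ?_⟩
    exact sg_inf_eq h hu ((InvAux.mem_Ch.1 hs).1 hP) ((mem_stab_iff.1 hus).2 P hP)

theorem mem_prj_sig [Fact p.Prime] [Fintype A] {t : Finset (Subgroup A)}
    (ht : t ∈ Ch (famAll p (W 0))) (i : Fin q) {P : Subgroup A} :
    P ∈ prj (W i) (sig q u t) ↔ ∃ Q ∈ t, cg (u ^ i.val) Q = P := by
  have h0 := (InvAux.mem_Ch.1 ht).1
  rw [mem_prj]
  constructor
  · rintro ⟨-, R, hR, rfl⟩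
    obtain ⟨Q, hQ, rfl⟩ := mem_sig.1 hR
    obtain ⟨h1, h2, h3⟩ := mem_famAll.1 (h0 hQ)
    exact ⟨Q, hQ, (sg_inf h hu h1 h2 i).symm⟩
  · rintro ⟨Q, hQ, rfl⟩
    obtain ⟨h1, h2, h3⟩ := mem_famAll.1 (h0 hQ)
    refine ⟨?_, sg q u Q, mem_sig.2 ⟨Q, hQ, rfl⟩, sg_inf h hu h1 h2 i⟩
    intro h4
    apply h3
    rw [← Jj.cj_inv_cj (u ^ i.val) Q, h4, Jj.cj_bot]

open Classical in
theorem prj_sig [Fact p.Prime] [Fintype A] {t : Finset (Subgroup A)}
    (ht : t ∈ Ch (famAll p (W 0))) (i : Fin q) :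
    prj (W i) (sig q u t) = t.image (cg (u ^ i.val)) := by
  ext P
  rw [mem_prj_sig h hu ht i, Finset.mem_image]

theorem prj_sig_zero [Fact p.Prime] [Fintype A] {t : Finset (Subgroup A)}
    (ht : t ∈ Ch (famAll p (W 0))) : prj (W 0) (sig q u t) = t := by
  ext P
  rw [mem_prj_sig h hu ht 0]
  have h5 : ((0 : Fin q).val) = 0 := rfl
  constructor
  · rintro ⟨Q, hQ, rfl⟩
    rwa [h5, pow_zero, cg_one]
  · intro hP
    exact ⟨P, hP, by rw [h5, pow_zero, cg_one]⟩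

theorem sig_mem [Fact p.Prime] [Fintype A] {t : Finset (Subgroup A)}
    (ht : t ∈ Ch (famAll p (W 0))) : sig q u t ∈ Ch (Hh.PD p V W) := by
  obtain ⟨h0, hc⟩ := InvAux.mem_Ch.1 ht
  rw [InvAux.mem_Ch]
  refine ⟨fun P hP => ?_, ?_⟩
  · obtain ⟨Q, hQ, rfl⟩ := mem_sig.1 hP
    exact sg_mem h hu (h0 hQ)
  · intro P hP P' hP' hne
    obtain ⟨Q, hQ, rfl⟩ := mem_sig.1 hP
    obtain ⟨Q', hQ', rfl⟩ := mem_sig.1 hP'
    have hne' : Q ≠ Q' := fun h => hne (by rw [h])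
    rcases hc hQ hQ' hne' with h1 | h1
    · exact Or.inl (sg_mono h1)
    · exact Or.inr (sg_mono h1)

omit h hu in
theorem sig_stab [Finite A] {t : Finset (Subgroup A)} (hut : u ^ q ∈ stab ⊤ t) :
    u ∈ stab ⊤ (sig q u t) := by
  rw [mem_stab_iff] at hut ⊢
  refine ⟨Subgroup.mem_top u, fun P hP => ?_⟩
  obtain ⟨Q, hQ, rfl⟩ := mem_sig.1 hP
  exact sg_normalizer (hut.2 Q hQ)

theorem pow_mem_stab [Fintype A] {s : Finset (Subgroup A)} (hus : u ∈ stab ⊤ s) :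
    u ^ q ∈ stab ⊤ (prj (W 0) s) := by
  rw [mem_stab_iff] at hus ⊢
  refine ⟨Subgroup.mem_top _, fun P hP => ?_⟩
  obtain ⟨-, Q, hQ, rfl⟩ := mem_prj.1 hP
  exact Jj.mem_normalizer_inf (Subgroup.pow_mem _ (hus.2 Q hQ) _)
    (cg_eq_self_iff.1 (cg_pow_q hu))

theorem card_sig [Fact p.Prime] [Fintype A] {t : Finset (Subgroup A)}
    (ht : t ∈ Ch (famAll p (W 0))) : (sig q u t).card = t.card := by
  classical
  unfold sig
  rw [Finset.card_image_of_injOn]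
  intro Q hQ R hR hQR
  have h0 := (InvAux.mem_Ch.1 ht).1
  obtain ⟨h1, h2, -⟩ := mem_famAll.1 (h0 hQ)
  obtain ⟨h1', h2', -⟩ := mem_famAll.1 (h0 hR)
  rw [← sg_inf_zero h hu h1 h2, ← sg_inf_zero h hu h1' h2', hQR]

theorem card_prj [Fact p.Prime] [Fintype A] {s : Finset (Subgroup A)}
    (hs : s ∈ Ch (Hh.PD p V W)) (hus : u ∈ stab ⊤ s) : (prj (W 0) s).card = s.card := by
  have h1 := card_sig h hu (prj_mem h hs 0)
  rw [sig_prj h hu hs hus] at h1
  exact h1.symm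

open Classical in
/-- (C4) -/
theorem sum_shift [Fact p.Prime] [Fintype A] {R : Type*} [AddCommMonoid R]
    (F : Finset (Subgroup A) → R) :
    ∑ s ∈ (Ch (Hh.PD p V W)).filter (fun s => u ∈ stab ⊤ s), F s =
      ∑ t ∈ (Ch (famAll p (W 0))).filter (fun t => u ^ q ∈ stab ⊤ t), F (sig q u t) := by
  refine Finset.sum_nbij' (fun s => prj (W 0) s) (fun t => sig q u t) ?_ ?_ ?_ ?_ ?_
  · intro s hs
    rw [Finset.mem_filter] at hs ⊢
    exact ⟨prj_mem h hs.1 0, pow_mem_stab h hu hs.2⟩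
  · intro t ht
    rw [Finset.mem_filter] at ht ⊢
    exact ⟨sig_mem h hu ht.1, sig_stab ht.2⟩
  · intro s hs
    rw [Finset.mem_filter] at hs
    exact sig_prj h hu hs.1 hs.2
  · intro t ht
    rw [Finset.mem_filter] at ht
    exact prj_sig_zero h hu ht.1
  · intro s hs
    rw [Finset.mem_filter] at hs
    rw [sig_prj h hu hs.1 hs.2]

end shift

/-- the decomposition into `q` factors that are permuted cyclically -/
theorem decF {L : Type*} [Group L] {p : ℕ} [Fact p.Prime] [Finite L] (hR : Rd p L)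
    {V : Subgroup L} (hV : MinN V) {E : Subgroup L} (hE : Cmp V E) {q : ℕ} [hq : Fact q.Prime]
    [NeZero q] (H : Subgroup L) [H.Normal] (hH : Subgroup.normalizer (E : Set L) ≤ H)
    (hi : H.index = q) {x : L} (hx : x ∉ H) :
    ∃ W : Fin q → Subgroup L, Dec p (Subgroup.center L) V W ∧
      (∀ i, cg x (W i) = W (i + 1)) ∧ (∀ g ∈ H, ∀ i, cg g (W i) = W i) ∧
      (∀ (g : L) (i : Fin q), ∃ j, cg g (W i) = W j) ∧
      ∀ i, ∃ g : L, cg g E ≤ W i := by
  have hord : orderOf (x : L ⧸ H) = q := by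
    apply orderOf_eq_prime
    · rw [← hi]
      have : Nat.card (L ⧸ H) = H.index := rfl
      rw [← this]
      exact pow_card_eq_one'
    · intro h1
      exact hx ((QuotientGroup.eq_one_iff x).1 h1)
  have hinj : Function.Injective (fun j : Fin q => ((x ^ j.val : L) : L ⧸ H)) := by
    intro i j hij
    have h1 : (x : L ⧸ H) ^ i.val = (x : L ⧸ H) ^ j.val := hij
    rw [pow_eq_pow_iff_modEq, hord] at h1
    rw [Nat.ModEq, Nat.mod_eq_of_lt i.isLt, Nat.mod_eq_of_lt j.isLt] at h1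
    exact Fin.ext h1
  have hbij : Function.Bijective (fun j : Fin q => ((x ^ j.val : L) : L ⧸ H)) := by
    rw [Nat.bijective_iff_injective_and_card]
    refine ⟨hinj, ?_⟩
    rw [Nat.card_fin]
    exact hi.symm
  refine ⟨fun j => WB E H ((x ^ j.val : L) : L ⧸ H),
    (hV.decB hR hE H hH).reindex (Equiv.ofBijective _ hbij), ?_, ?_, ?_, ?_⟩
  · intro j
    rw [WB.cg_eq]
    congr 1
    show (x : L ⧸ H) * (x : L ⧸ H) ^ j.val = (x : L ⧸ H) ^ (j + 1).val
    rw [← pow_succ', pow_eq_pow_iff_modEq, hord, Fin.val_add, Fin.val_one',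
      Nat.mod_eq_of_lt hq.out.one_lt]
    exact (Nat.mod_modEq _ _).symm
  · intro g hg j
    rw [WB.cg_eq]
    congr 1
    show (g : L ⧸ H) * (x : L ⧸ H) ^ j.val = (x : L ⧸ H) ^ j.val
    rw [(QuotientGroup.eq_one_iff g).2 hg, one_mul]
  · intro g i
    obtain ⟨j, hj⟩ := hbij.2 (g • ((x ^ i.val : L) : L ⧸ H))
    refine ⟨j, ?_⟩
    rw [WB.cg_eq]
    congr 1
    exact hj.symm
  · intro i
    exact ⟨x ^ i.val, WB.cg_le E H (x ^ i.val)⟩

end Pool.Agent.Lib.P0c8ca5.Ll
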