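import Pool.Agent.Lib.P0c8ca5L.ChnA

/-!
# Stabilisers and centralisers of chains of p-subgroups of product type

For `Dec p Z V W` and a chain `s` of p-subgroups of product type with projections `t i = prj (W i) s`:
`sup_inf`, `sup_eq`: the largest members; `mem_stab_top`: an element that normalises the factors stabilises `s` if and
only if it stabilises all `t i`; `stab_dec`: `stab V s` is the product of the `stab (W i) (t i)`;
`lp_mem_stab`, `exists_lp`, `lp_mul_centralizer`: the same for products of elements.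
-/

set_option autoImplicit false

namespace Pool.Agent.Lib.P0c8ca5.Ll

open Subgroup Jj Gg Hh

variable {p : ℕ} {A : Type*} [Group A] {Z V : Subgroup A}

theorem mem_stab_iff {X : Subgroup A} {σ : Finset (Subgroup A)} {x : A} :
    x ∈ stab X σ ↔ x ∈ X ∧ ∀ Q ∈ σ, x ∈ Subgroup.normalizer (Q : Set A) := by
  unfold stab
  rw [Subgroup.mem_inf, Subgroup.mem_iInf]
  refine and_congr_right fun _ => forall_congr' fun Q => ?_
  rw [Subgroup.mem_iInf]

theorem mem_norm_of_comm {Q : Subgroup A} {x : A} (hx : ∀ y ∈ Q, x * y = y * x) :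
    x ∈ Subgroup.normalizer (Q : Set A) := by
  apply Subgroup.centralizer_le_normalizer
  rw [Subgroup.mem_centralizer_iff]
  exact fun y hy => (hx y hy).symm

section gen

variable {ι : Type*} {W : ι → Subgroup A}

/-- (C3 a) -/
theorem sup_inf [Fintype A] {s : Finset (Subgroup A)} (hs : s ∈ Ch (Hh.PD p V W)) (i : ι) :
    (s.sup id) ⊓ W i = (prj (W i) s).sup id := by
  have hc := (InvAux.mem_Ch.1 hs).2
  apply le_antisymm
  · rcases sup_mem_of_chain hc with h1 | h1
    · rw [h1, bot_inf_eq]; exact bot_le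
    · by_cases h2 : s.sup id ⊓ W i = ⊥
      · rw [h2]; exact bot_le
      · exact Finset.le_sup (f := id) (mem_prj.2 ⟨h2, _, h1, rfl⟩)
  · refine Finset.sup_le fun P hP => ?_
    obtain ⟨-, Q, hQ, rfl⟩ := mem_prj.1 hP
    exact inf_le_inf_right _ (Finset.le_sup (f := id) hQ)

theorem sup_pt [Fintype A] {s : Finset (Subgroup A)} (hs : s ∈ Ch (Hh.PD p V W)) :
    Jj.PT W (s.sup id) := by
  obtain ⟨h0, hc⟩ := InvAux.mem_Ch.1 hs
  rcases sup_mem_of_chain hc with h1 | h1
  · rw [h1]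
    apply Jj.PT.of_le
    exact bot_le
  · exact (mem_PD'.1 (h0 h1)).2.2.2

theorem sup_eq [Fintype A] {s : Finset (Subgroup A)} (hs : s ∈ Ch (Hh.PD p V W)) :
    s.sup id = ⨆ i, (prj (W i) s).sup id := by
  have h1 : s.sup id = ⨆ i, s.sup id ⊓ W i := sup_pt hs
  rw [h1]
  exact iSup_congr fun i => sup_inf hs i

theorem mem_normalizer_bot (x : A) : x ∈ Subgroup.normalizer ((⊥ : Subgroup A) : Set A) := by
  rw [Subgroup.normalizer_eq_top]
  exact Subgroup.mem_top x

/-- (C3 c) -/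
theorem mem_stab_top [Fintype A] {s : Finset (Subgroup A)} (hs : s ∈ Ch (Hh.PD p V W)) {x : A}
    (hx : ∀ i, x ∈ Subgroup.normalizer (W i : Set A)) :
    x ∈ stab ⊤ s ↔ ∀ i, x ∈ stab ⊤ (prj (W i) s) := by
  constructor
  · intro h1 i
    rw [mem_stab_iff] at h1 ⊢
    refine ⟨Subgroup.mem_top x, fun P hP => ?_⟩
    obtain ⟨-, Q, hQ, rfl⟩ := mem_prj.1 hP
    exact Jj.mem_normalizer_inf (h1.2 Q hQ) (hx i)
  · intro h1
    rw [mem_stab_iff]
    refine ⟨Subgroup.mem_top x, fun Q hQ => ?_⟩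
    have hQ' := (mem_PD'.1 ((InvAux.mem_Ch.1 hs).1 hQ)).2.2.2
    apply hQ'.mem_normalizer
    intro i
    by_cases h2 : Q ⊓ W i = ⊥
    · rw [h2]; exact mem_normalizer_bot x
    · exact (mem_stab_iff.1 (h1 i)).2 _ (mem_prj.2 ⟨h2, Q, hQ, rfl⟩)

theorem mem_stab_factor [Fintype A] (h : Dec p Z V W) {s : Finset (Subgroup A)}
    (hs : s ∈ Ch (Hh.PD p V W)) {i : ι} {x : A} (hx : x ∈ W i) :
    x ∈ stab V s ↔ x ∈ stab (W i) (prj (W i) s) := by
  have hxV : x ∈ V := h.le' i hx
  have hn : ∀ j, x ∈ Subgroup.normalizer (W j : Set A) := fun j => norBy_iff.1 (h.norBy j) hxV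
  have h1 : x ∈ stab V s ↔ x ∈ stab ⊤ s := by
    rw [mem_stab_iff, mem_stab_iff]
    exact ⟨fun h => ⟨Subgroup.mem_top x, h.2⟩, fun h => ⟨hxV, h.2⟩⟩
  rw [h1, mem_stab_top hs hn]
  constructor
  · intro h2
    exact mem_stab_iff.2 ⟨hx, (mem_stab_iff.1 (h2 i)).2⟩
  · intro h2 j
    rw [mem_stab_iff]
    refine ⟨Subgroup.mem_top x, fun P hP => ?_⟩
    by_cases hij : j = i
    · subst hij
      exact (mem_stab_iff.1 h2).2 P hP
    · obtain ⟨-, Q, hQ, rfl⟩ := mem_prj.1 hP
      apply mem_norm_of_comm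
      intro y hy
      exact h.comm i j (Ne.symm hij) x hx y hy.2

theorem center_le_stab' (h : Dec p Z V W) (i : ι) (t : Finset (Subgroup A)) :
    Z ≤ stab (W i) t := by
  intro z hz
  rw [mem_stab_iff]
  refine ⟨h.le i hz, fun Q _ => ?_⟩
  apply mem_norm_of_comm
  exact fun y _ => h.zcomm hz y

theorem stab_le_iSup [Fintype A] [Finite ι] (h : Dec p Z V W) {s : Finset (Subgroup A)}
    (hs : s ∈ Ch (Hh.PD p V W)) : stab V s ≤ ⨆ i, stab (W i) (prj (W i) s) := by
  rcases isEmpty_or_nonempty ι with he | ⟨⟨i₀⟩⟩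
  · have h1 : V = ⊥ := by rw [← h.sup, iSup_of_empty]
    refine le_trans inf_le_left ?_
    rw [h1]; exact bot_le
  · have h1 : stab V s ≤ Z ⊔ ⨆ i, stab (W i) (prj (W i) s) := by
      have h0 : stab V s ≤ V := inf_le_left
      apply Dec.le_of_proj h h0 (U := fun i => stab (W i) (prj (W i) s)) (fun i => inf_le_left)
      intro i w hw u hu hwu
      rw [mem_stab_iff] at hwu
      show w ∈ stab (W i) (prj (W i) s)
      rw [mem_stab_iff]
      refine ⟨hw, fun P hP => ?_⟩
      obtain ⟨-, Q, hQ, rfl⟩ := mem_prj.1 hP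
      have h1 : w * u ∈ Subgroup.normalizer ((Q ⊓ W i : Subgroup A) : Set A) :=
        Jj.mem_normalizer_inf (hwu.2 Q hQ) (norBy_iff.1 (h.norBy i) hwu.1)
      have h2 : u ∈ Subgroup.normalizer ((Q ⊓ W i : Subgroup A) : Set A) := by
        apply mem_norm_of_comm
        intro y hy
        exact (Dec.comm_others h i y hy.2 u hu).symm
      have e : w = w * u * u⁻¹ := by group
      rw [e]
      exact Subgroup.mul_mem _ h1 (Subgroup.inv_mem _ h2)
    refine h1.trans (sup_le ?_ le_rfl)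
    exact (center_le_stab' h i₀ _).trans (le_iSup (fun i => stab (W i) (prj (W i) s)) i₀)

/-- (C3 b) -/
theorem stab_eq_iSup [Fintype A] [Finite ι] (h : Dec p Z V W) {s : Finset (Subgroup A)}
    (hs : s ∈ Ch (Hh.PD p V W)) : stab V s = ⨆ i, stab (W i) (prj (W i) s) := by
  apply le_antisymm (stab_le_iSup h hs)
  refine iSup_le fun i x hx => ?_
  have hxW : x ∈ W i := (mem_stab_iff.1 hx).1
  exact (mem_stab_factor h hs hxW).2 hx

/-- `stab V s` is again a central product -/
theorem stab_dec [Fintype A] [Finite ι] (h : Dec p Z V W) {s : Finset (Subgroup A)}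
    (hs : s ∈ Ch (Hh.PD p V W)) : Dec p Z (stab V s) (fun i => stab (W i) (prj (W i) s)) := by
  refine ⟨fun i => center_le_stab' h i _, fun i => ?_, (stab_eq_iSup h hs).symm, ?_, ?_, h.cen,
    h.pr⟩
  · rw [stab_eq_iSup h hs]
    exact le_iSup (fun i => stab (W i) (prj (W i) s)) i
  · intro i j hij x hx y hy
    exact h.comm i j hij x (mem_stab_iff.1 hx).1 y (mem_stab_iff.1 hy).1
  · intro i
    refine le_trans (inf_le_inf inf_le_left ?_) (h.indep i)
    exact iSup_mono fun j => iSup_mono fun _ => inf_le_left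

end gen

section lp

theorem lp_mem {n : ℕ} {H : Subgroup A} {a : Fin n → A} (ha : ∀ i, a i ∈ H) : lp a ∈ H := by
  induction n with
  | zero => rw [lp_zero]; exact H.one_mem
  | succ n ih =>
    rw [lp_succ]
    exact H.mul_mem (ha 0) (ih fun i => ha i.succ)

theorem lp_factor {n : ℕ} {W : Fin n → Subgroup A}
    (hc : ∀ i j, i ≠ j → ∀ x ∈ W i, ∀ y ∈ W j, x * y = y * x) {a : Fin n → A}
    (ha : ∀ i, a i ∈ W i) (i : Fin n) :
    ∃ u ∈ ⨆ (j) (_ : j ≠ i), W j, lp a = a i * u := by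
  induction n with
  | zero => exact i.elim0
  | succ n ih =>
    rw [lp_succ]
    refine Fin.cases ?_ (fun i' => ?_) i
    · refine ⟨lp (fun j : Fin n => a j.succ), ?_, rfl⟩
      apply lp_mem
      intro j
      have h1 : W j.succ ≤ ⨆ (k) (_ : k ≠ (0 : Fin (n + 1))), W k :=
        le_iSup₂_of_le (f := fun k (_ : k ≠ (0 : Fin (n + 1))) => W k) j.succ
          (Fin.succ_ne_zero j) le_rfl
      exact h1 (ha j.succ)
    · obtain ⟨u, hu, hlu⟩ := ih (W := fun j => W j.succ) (a := fun j => a j.succ)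
        (fun j k hjk => hc j.succ k.succ fun h => hjk (Fin.succ_injective n h))
        (fun j => ha j.succ) i'
      refine ⟨a 0 * u, Subgroup.mul_mem _ ?_ ?_, ?_⟩
      · have h1 : W 0 ≤ ⨆ (k) (_ : k ≠ i'.succ), W k :=
          le_iSup₂_of_le (f := fun k (_ : k ≠ i'.succ) => W k) 0
            (Fin.succ_ne_zero i').symm le_rfl
        exact h1 (ha 0)
      · have h1 : (⨆ (j) (_ : j ≠ i'), W j.succ) ≤ ⨆ (k) (_ : k ≠ i'.succ), W k := by
          refine iSup_le fun j => iSup_le fun hj => ?_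
          exact le_iSup₂_of_le (f := fun k (_ : k ≠ i'.succ) => W k) j.succ
            (fun h => hj (Fin.succ_injective n h)) le_rfl
        exact h1 hu
      · rw [hlu, ← mul_assoc, hc 0 i'.succ (Fin.succ_ne_zero i').symm (a 0) (ha 0) (a i'.succ)
          (ha i'.succ), mul_assoc]

theorem mem_iSup_lp {n : ℕ} {X : Fin n → Subgroup A}
    (hc : ∀ i j, i ≠ j → ∀ x ∈ X i, ∀ y ∈ X j, x * y = y * x) {x : A} :
    x ∈ ⨆ i, X i ↔ ∃ a : Fin n → A, (∀ i, a i ∈ X i) ∧ lp a = x := by
  constructor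
  · intro hx
    induction n generalizing x with
    | zero =>
      rw [iSup_of_empty, Subgroup.mem_bot] at hx
      exact ⟨Fin.elim0, fun i => i.elim0, by rw [lp_zero, hx]⟩
    | succ n ih =>
      have h1 : (⨆ i, X i) ≤ X 0 ⊔ ⨆ i : Fin n, X i.succ := by
        refine iSup_le fun i => ?_
        refine Fin.cases le_sup_left (fun j => ?_) i
        exact (le_iSup (fun i : Fin n => X i.succ) j).trans le_sup_right
      obtain ⟨a0, ha0, b, hb, rfl⟩ := mem_sup_of_commute (P := X 0)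
        (R := ⨆ i : Fin n, X i.succ) (fun y hy z hz => by
          have h2 : (⨆ i : Fin n, X i.succ) ≤ Subgroup.centralizer {y} := by
            refine iSup_le fun j w hw => ?_
            rw [Subgroup.mem_centralizer_iff]
            rintro v hv
            rw [Set.mem_singleton_iff] at hv
            rw [hv]
            exact hc 0 j.succ (Fin.succ_ne_zero j).symm y hy w hw
          exact (Subgroup.mem_centralizer_iff.1 (h2 hz) y rfl).symm) x (h1 hx)
      obtain ⟨a, ha, rfl⟩ := ih (X := fun i => X i.succ)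
        (fun j k hjk => hc j.succ k.succ fun h => hjk (Fin.succ_injective n h)) hb
      refine ⟨Fin.cons a0 a, fun i => ?_, ?_⟩
      · refine Fin.cases ?_ (fun j => ?_) i
        · rw [Fin.cons_zero]; exact ha0
        · rw [Fin.cons_succ]; exact ha j
      · rw [lp_succ, Fin.cons_zero]
        simp only [Fin.cons_succ]
  · rintro ⟨a, ha, rfl⟩
    exact lp_mem fun i => le_iSup X i (ha i)

variable {n : ℕ} {W : Fin n → Subgroup A}

/-- (C3 b) for products of elements -/
theorem lp_mem_stab [Fintype A] (h : Dec p Z V W) {s : Finset (Subgroup A)}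
    (hs : s ∈ Ch (Hh.PD p V W)) {a : Fin n → A} (ha : ∀ i, a i ∈ W i) :
    lp a ∈ stab V s ↔ ∀ i, a i ∈ stab (W i) (prj (W i) s) := by
  constructor
  · intro h1 i
    obtain ⟨u, hu, hlu⟩ := lp_factor h.comm ha i
    rw [hlu, mem_stab_iff] at h1
    rw [mem_stab_iff]
    refine ⟨ha i, fun P hP => ?_⟩
    obtain ⟨-, Q, hQ, rfl⟩ := mem_prj.1 hP
    have h3 : a i * u ∈ Subgroup.normalizer ((Q ⊓ W i : Subgroup A) : Set A) :=
      Jj.mem_normalizer_inf (h1.2 Q hQ) (norBy_iff.1 (h.norBy i) h1.1)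
    have h2 : u ∈ Subgroup.normalizer ((Q ⊓ W i : Subgroup A) : Set A) := by
      apply mem_norm_of_comm
      intro y hy
      exact (Dec.comm_others h i y hy.2 u ((le_sup_right : _ ≤ Z ⊔ _) hu)).symm
    have e : a i = a i * u * u⁻¹ := by group
    rw [e]
    exact Subgroup.mul_mem _ h3 (Subgroup.inv_mem _ h2)
  · intro h1
    rw [stab_eq_iSup h hs]
    exact lp_mem fun i => le_iSup (fun i => stab (W i) (prj (W i) s)) i (h1 i)

theorem exists_lp [Fintype A] (h : Dec p Z V W) {s : Finset (Subgroup A)}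
    (hs : s ∈ Ch (Hh.PD p V W)) {v : A} (hv : v ∈ stab V s) :
    ∃ a : Fin n → A, (∀ i, a i ∈ stab (W i) (prj (W i) s)) ∧ lp a = v := by
  rw [stab_eq_iSup h hs] at hv
  exact (mem_iSup_lp (stab_dec h hs).comm).1 hv

/-- `lp a * x` acts on `W i` as `a i * x` -/
theorem lp_mul_conj (h : Dec p Z V W) {a : Fin n → A} (ha : ∀ i, a i ∈ W i) {x : A}
    (hx : ∀ i, x ∈ Subgroup.normalizer (W i : Set A)) {i : Fin n} {y : A} (hy : y ∈ W i) :
    lp a * x * y * (lp a * x)⁻¹ = a i * x * y * (a i * x)⁻¹ := by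
  obtain ⟨u, hu, hlu⟩ := lp_factor h.comm ha i
  have hxy : x * y * x⁻¹ ∈ W i := (Subgroup.mem_normalizer_iff.1 (hx i) y).1 hy
  have h1 : x * y * x⁻¹ * u = u * (x * y * x⁻¹) :=
    Dec.comm_others h i _ hxy u ((le_sup_right : _ ≤ Z ⊔ _) hu)
  rw [hlu]
  calc a i * u * x * y * (a i * u * x)⁻¹ = a i * (u * (x * y * x⁻¹)) * u⁻¹ * (a i)⁻¹ := by group
    _ = a i * (x * y * x⁻¹ * u) * u⁻¹ * (a i)⁻¹ := by rw [h1]
    _ = a i * x * y * (a i * x)⁻¹ := by group

theorem comm_iff_conj {g y : A} : g * y = y * g ↔ g * y * g⁻¹ = y := by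
  constructor
  · intro h; rw [h]; group
  · intro h
    calc g * y = g * y * g⁻¹ * g := by group
      _ = y * g := by rw [h]

/-- (C3 d) -/
theorem lp_mul_centralizer [Fintype A] (h : Dec p Z V W) {s : Finset (Subgroup A)}
    (hs : s ∈ Ch (Hh.PD p V W)) {a : Fin n → A} (ha : ∀ i, a i ∈ W i) {x : A}
    (hx : ∀ i, x ∈ Subgroup.normalizer (W i : Set A)) :
    lp a * x ∈ Subgroup.centralizer ((s.sup id : Subgroup A) : Set A) ↔
      ∀ i, a i * x ∈ Subgroup.centralizer (((prj (W i) s).sup id : Subgroup A) : Set A) := by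
  have hle : ∀ i, (prj (W i) s).sup id ≤ W i := fun i => by
    rw [← sup_inf hs i]; exact inf_le_right
  constructor
  · intro h1 i
    rw [Subgroup.mem_centralizer_iff] at h1 ⊢
    intro y hy
    have hyW : y ∈ W i := hle i hy
    have hy' : y ∈ s.sup id := by
      have h2 : (prj (W i) s).sup id ≤ s.sup id := by
        rw [← sup_inf hs i]; exact inf_le_left
      exact h2 hy
    have h3 := comm_iff_conj.1 (h1 y hy').symm
    rw [lp_mul_conj h ha hx hyW] at h3
    exact (comm_iff_conj.2 h3).symm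
  · intro h1
    have h2 : s.sup id ≤ Subgroup.centralizer {lp a * x} := by
      rw [sup_eq hs]
      refine iSup_le fun i y hy => ?_
      rw [Subgroup.mem_centralizer_iff]
      rintro v hv
      rw [Set.mem_singleton_iff] at hv
      rw [hv]
      have h3 := comm_iff_conj.1 (Subgroup.mem_centralizer_iff.1 (h1 i) y hy).symm
      rw [← lp_mul_conj h ha hx (hle i hy)] at h3
      exact comm_iff_conj.2 h3
    rw [Subgroup.mem_centralizer_iff]
    intro y hy
    exact (Subgroup.mem_centralizer_iff.1 (h2 hy) _ rfl).symm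

theorem lp_centralizer [Fintype A] (h : Dec p Z V W) {s : Finset (Subgroup A)}
    (hs : s ∈ Ch (Hh.PD p V W)) {a : Fin n → A} (ha : ∀ i, a i ∈ W i) :
    lp a ∈ Subgroup.centralizer ((s.sup id : Subgroup A) : Set A) ↔
      ∀ i, a i ∈ Subgroup.centralizer (((prj (W i) s).sup id : Subgroup A) : Set A) := by
  have h1 := lp_mul_centralizer h hs ha (x := 1) (fun i => Subgroup.one_mem _)
  simpa only [mul_one] using h1

/-- (C3 c) for `lp a * x` -/
theorem lp_mul_mem_stab_top [Fintype A] (h : Dec p Z V W) {s : Finset (Subgroup A)}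
    (hs : s ∈ Ch (Hh.PD p V W)) {a : Fin n → A} (ha : ∀ i, a i ∈ W i) {x : A}
    (hx : ∀ i, x ∈ Subgroup.normalizer (W i : Set A)) :
    lp a * x ∈ stab ⊤ s ↔ ∀ i, a i * x ∈ stab ⊤ (prj (W i) s) := by
  have hV : ∀ i, lp a ∈ Subgroup.normalizer (W i : Set A) := fun i =>
    norBy_iff.1 (h.norBy i) (lp_mem fun j => h.le' j (ha j))
  rw [mem_stab_top hs fun i => Subgroup.mul_mem _ (hV i) (hx i)]
  refine forall_congr' fun i => ?_
  rw [mem_stab_iff, mem_stab_iff]
  refine and_congr_right fun _ => forall_congr' fun P => forall_congr' fun hP => ?_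
  obtain ⟨-, Q, hQ, rfl⟩ := mem_prj.1 hP
  rw [← cg_eq_self_iff, ← cg_eq_self_iff]
  have h1 : cg (lp a * x) (Q ⊓ W i) = cg (a i * x) (Q ⊓ W i) := by
    unfold cg
    apply le_antisymm
    · rintro _ ⟨y, hy, rfl⟩
      refine ⟨y, hy, ?_⟩
      exact (lp_mul_conj h ha hx hy.2).symm
    · rintro _ ⟨y, hy, rfl⟩
      refine ⟨y, hy, ?_⟩
      exact lp_mul_conj h ha hx hy.2
  rw [h1]

end lp

end Pool.Agent.Lib.P0c8ca5.Ll
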