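import Pool.Agent.Lib.P0c8ca5L.FamP
import Pool.Agent.Lib.P0c8ca5H.Defs

/-!
# Chains of p-subgroups of product type

`PD_fam`: the nontrivial p-subgroups of product type form a family with a closure operator.
`comb`: an alternating sum over the chains of p-subgroups of product type, of a function of the projections, is an
alternating sum over the families of chains of p-subgroups of the factors.
-/

set_option autoImplicit false

namespace Pool.Agent.Lib.P0c8ca5.Ll

open Subgroup Jj Gg Hh

section gen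

variable {α β : Type*} [PartialOrder α] [SemilatticeSup β] [OrderBot β] {ι : Type*}
  {D : Finset α} {E : ι → Finset β} {π : ι → α → β}

open Classical in
theorem PrSys.sum_gen [Fintype ι] (h : PrSys D E π) {R : Type*} [CommRing R]
    (F : (ι → Finset β) → R) :
    ∑ σ ∈ chs D, (-1) ^ σ.card * F (fun i => pr (π i) σ) =
      ∑ t ∈ Fintype.piFinset (fun i => chs (E i)), (-1) ^ (∑ i, (t i).card) * F t := by
  rw [← Finset.sum_fiberwise_of_maps_to (s := chs D) (t := Fintype.piFinset (fun i => chs (E i)))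
    (g := fun σ i => pr (π i) σ)]
  · apply Finset.sum_congr rfl
    intro t ht
    rw [Fintype.mem_piFinset] at ht
    rw [← Finset.prod_pow_eq_pow_sum, ← h.sum_pr_eq _ t rfl ht, Finset.sum_mul]
    have e : (chs D).filter (fun σ => (fun i => pr (π i) σ) = t) =
        (chs D).filter (fun σ => ∀ i, pr (π i) σ = t i) := by
      ext σ
      rw [Finset.mem_filter, Finset.mem_filter, funext_iff]
    rw [e]
    apply Finset.sum_congr rfl
    intro σ hσ
    rw [Finset.mem_filter] at hσ
    rw [show (fun i => pr (π i) σ) = t from funext hσ.2]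
  · intro σ hσ
    rw [Fintype.mem_piFinset]
    exact fun i => h.pr_mem hσ i

end gen

variable {p : ℕ} {A : Type*} [Group A] {Z V : Subgroup A} {ι : Type*} {W : ι → Subgroup A}

theorem chs_eq (D : Finset (Subgroup A)) : chs D = Ch D := by
  ext σ
  rw [mem_chs, InvAux.mem_Ch]

theorem pr_eq (X : Subgroup A) (σ : Finset (Subgroup A)) : pr (fun Q => Q ⊓ X) σ = prj X σ := by
  ext P
  rw [mem_pr, mem_prj]

theorem PD_eq [Fintype A] : Hh.PD p V W = famP p V W := by
  ext Q
  rw [mem_PD, mem_famP]
  unfold Jj.PT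
  constructor
  · rintro ⟨h1, h2, h3, h4⟩
    exact ⟨h1, h2, h3, h4.symm⟩
  · rintro ⟨h1, h2, h3, h4⟩
    exact ⟨h1, h2, h3, h4.symm⟩

theorem mem_PD' [Fintype A] {Q : Subgroup A} :
    Q ∈ Hh.PD p V W ↔ Q ≤ V ∧ IsPGroup p Q ∧ Q ≠ ⊥ ∧ Jj.PT W Q := by
  rw [PD_eq, mem_famP]

theorem exists_perm [Finite A] [Finite ι] (h : Dec p Z V W) {g : A}
    (hg : ∀ i, ∃ j, cg g (W i) = W j) : ∃ s : Equiv.Perm ι, ∀ i, cg g (W i) = W (s i) := by
  classical
  have hZ : cg g Z = Z := Jj.cj_of_normal (normal_of_cen h.cen) g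
  have hinj : ∀ i j, W i = W j → W i ≠ Z → i = j := by
    intro i j hij hi
    by_contra hne
    apply hi
    apply le_antisymm _ (h.le i)
    refine le_trans (le_inf le_rfl ?_) (h.indep i)
    refine hij.le.trans ?_
    exact le_iSup₂_of_le (f := fun k (_ : k ≠ i) => W k) j (Ne.symm hne) le_rfl
  choose f hf using hg
  let s : ι → ι := fun i => if W i = Z then i else f i
  have hs : ∀ i, cg g (W i) = W (s i) := by
    intro i
    by_cases hi : W i = Z
    · have e : s i = i := if_pos hi
      rw [e, hi, hZ]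
    · have e : s i = f i := if_neg hi
      rw [e, hf i]
  have hsinj : Function.Injective s := by
    intro i j hij
    have h1 : cg g (W i) = cg g (W j) := by rw [hs i, hs j, hij]
    have h2 : W i = W j := by rw [← Jj.cj_inv_cj g (W i), h1, Jj.cj_inv_cj]
    by_cases hi : W i = Z
    · have hj : W j = Z := by rw [← h2, hi]
      have e1 : s i = i := if_pos hi
      have e2 : s j = j := if_pos hj
      rw [← e1, hij, e2]
    · exact hinj i j h2 hi
  exact ⟨Equiv.ofBijective s (Finite.injective_iff_bijective.1 hsinj), hs⟩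

/-- (C1) -/
theorem PD_fam [Fact p.Prime] [Fintype A] [Finite ι] (h : Dec p Z V W)
    (hW : ∀ (g : A) (i : ι), ∃ j, cg g (W i) = W j) : Fam p ⊤ V (Hh.PD p V W) := by
  rw [PD_eq]
  exact h.famP_fam fun g _ => exists_perm h (hW g)

theorem prSys_PD [Fact p.Prime] [Fintype A] [Finite ι] (h : Dec p Z V W) :
    PrSys (Hh.PD p V W) (fun i => famAll p (W i)) (fun i Q => Q ⊓ W i) := by
  refine h.prSys ∅ (fun x hx => absurd hx (Set.notMem_empty x)) _ _ ?_ ?_
  · intro Q
    rw [PD_eq]
    exact ⟨fun h => ⟨h, fun x hx => absurd hx (Set.notMem_empty x)⟩, fun h => h.1⟩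
  · intro i Q
    exact ⟨fun h => ⟨h, fun x hx => absurd hx (Set.notMem_empty x)⟩, fun h => h.1⟩

open Classical in
/-- (C2) -/
theorem comb [Fact p.Prime] [Fintype A] [Fintype ι] (h : Dec p Z V W) {R : Type*} [CommRing R]
    (F : (ι → Finset (Subgroup A)) → R) :
    ∑ s ∈ Ch (Hh.PD p V W), (-1) ^ s.card * F (fun i => prj (W i) s) =
      ∑ t ∈ Fintype.piFinset (fun i => Ch (famAll p (W i))),
        (-1) ^ (∑ i, (t i).card) * F t := by
  have h1 := (prSys_PD h).sum_gen F
  simp only [chs_eq, pr_eq] at h1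
  exact h1

/-- the projections of a chain are chains -/
theorem prj_mem [Fact p.Prime] [Fintype A] [Finite ι] (h : Dec p Z V W)
    {s : Finset (Subgroup A)} (hs : s ∈ Ch (Hh.PD p V W)) (i : ι) :
    prj (W i) s ∈ Ch (famAll p (W i)) := by
  have h1 := (prSys_PD h).pr_mem (σ := s) (by rw [chs_eq]; exact hs) i
  rwa [chs_eq, pr_eq] at h1

end Pool.Agent.Lib.P0c8ca5.Ll
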