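import Pool.Agent.Lib.P0c8ca5L.ChnB

/-!
# Sums over central products

`sum_lp`: for subgroups `Z ≤ X i ≤ W i`, a sum over the families `a i ∈ X i` of `F (lp a)` is `|Z| ^ (n - 1)` times the
sum of `F` over the product of the `X i`.
`relIndex_stab`: the index of `stab V s` in `V` is the product of the indices of the `stab (W i) (prj (W i) s)`.
-/

set_option autoImplicit false

namespace Pool.Agent.Lib.P0c8ca5.Ll

open Subgroup Jj Gg Hh

variable {A : Type*} [Group A]

theorem sum_pair [Finite A] {R : Type*} [CommSemiring R] {X Y : Subgroup A}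
    (hc : ∀ x ∈ X, ∀ y ∈ Y, x * y = y * x) (SX SY SU : Finset A) (hX : ∀ x, x ∈ SX ↔ x ∈ X)
    (hY : ∀ x, x ∈ SY ↔ x ∈ Y) (hU : ∀ x, x ∈ SU ↔ x ∈ X ⊔ Y) (F : A → R) :
    ∑ x ∈ SX, ∑ y ∈ SY, F (x * y) = (Nat.card ↥(X ⊓ Y) : R) * ∑ u ∈ SU, F u := by
  classical
  have := Fintype.ofFinite A
  rw [← Finset.sum_product']
  rw [← Finset.sum_fiberwise_of_maps_to (s := SX ×ˢ SY) (t := SU) (g := fun q => q.1 * q.2)]
  · rw [Finset.mul_sum]
    apply Finset.sum_congr rfl
    intro u hu
    rw [Finset.sum_congr rfl (g := fun _ => F u) (fun q hq => by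
      rw [(Finset.mem_filter.1 hq).2]), Finset.sum_const, nsmul_eq_mul]
    congr 2
    obtain ⟨x0, hx0, y0, hy0, rfl⟩ := mem_sup_of_commute (fun y hy z hz => (hc y hy z hz).symm) u
      ((hU u).1 hu)
    have h1 : Nat.card ↥(X ⊓ Y) = (Finset.univ.filter (fun z : A => z ∈ X ⊓ Y)).card := by
      rw [Nat.card_eq_fintype_card, Fintype.card_subtype]
    rw [h1]
    symm
    refine Finset.card_bij (fun z _ => (x0 * z, z⁻¹ * y0)) ?_ ?_ ?_
    · intro z hz
      have hz' := (Finset.mem_filter.1 hz).2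
      rw [Finset.mem_filter, Finset.mem_product]
      refine ⟨⟨(hX _).2 (X.mul_mem hx0 hz'.1), (hY _).2 (Y.mul_mem (Y.inv_mem hz'.2) hy0)⟩, ?_⟩
      show x0 * z * (z⁻¹ * y0) = x0 * y0
      group
    · intro z _ z' _ h
      have h2 : x0 * z = x0 * z' := congrArg Prod.fst h
      exact mul_left_cancel h2
    · rintro ⟨x, y⟩ hq
      rw [Finset.mem_filter, Finset.mem_product] at hq
      obtain ⟨⟨hx, hy⟩, hxy⟩ := hq
      have hx' : x ∈ X := (hX x).1 hx
      have hy' : y ∈ Y := (hY y).1 hy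
      have hxy' : x * y = x0 * y0 := hxy
      refine ⟨x0⁻¹ * x, ?_, ?_⟩
      · rw [Finset.mem_filter]
        refine ⟨Finset.mem_univ _, X.mul_mem (X.inv_mem hx0) hx', ?_⟩
        have e : x0⁻¹ * x = y0 * y⁻¹ := by
          calc x0⁻¹ * x = x0⁻¹ * (x * y) * y⁻¹ := by group
            _ = x0⁻¹ * (x0 * y0) * y⁻¹ := by rw [hxy']
            _ = y0 * y⁻¹ := by group
        show x0⁻¹ * x ∈ Y
        rw [e]
        exact Y.mul_mem hy0 (Y.inv_mem hy')
      · apply Prod.ext
        · show x0 * (x0⁻¹ * x) = x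
          group
        · show (x0⁻¹ * x)⁻¹ * y0 = y
          calc (x0⁻¹ * x)⁻¹ * y0 = x⁻¹ * (x0 * y0) := by group
            _ = x⁻¹ * (x * y) := by rw [hxy']
            _ = y := by group
  · rintro ⟨x, y⟩ hq
    rw [Finset.mem_product] at hq
    rw [hU]
    exact Subgroup.mul_mem _ ((le_sup_left : X ≤ _) ((hX x).1 hq.1))
      ((le_sup_right : Y ≤ _) ((hY y).1 hq.2))

/-- (C3 e) -/
theorem sum_lp_aux [Finite A] {R : Type*} [CommSemiring R] {Z : Subgroup A} (F : A → R) :
    ∀ (n : ℕ) (X : Fin n → Subgroup A) (S : Fin n → Finset A) (T : Finset A),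
      (∀ i x, x ∈ S i ↔ x ∈ X i) → (∀ x, x ∈ T ↔ x ∈ ⨆ i, X i) →
      (∀ i j, i ≠ j → ∀ x ∈ X i, ∀ y ∈ X j, x * y = y * x) →
      (∀ i, X i ⊓ (⨆ (j) (_ : j ≠ i), X j) ≤ Z) → (∀ i, Z ≤ X i) →
      ∑ a ∈ Fintype.piFinset S, F (lp a) = (Nat.card Z : R) ^ (n - 1) * ∑ v ∈ T, F v := by
  classical
  intro n
  induction n generalizing F with
  | zero =>
    intro X S T _ hT _ _ _
    have h1 : T = {1} := by
      ext x
      rw [hT, iSup_of_empty, Subgroup.mem_bot, Finset.mem_singleton]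
    have h2 : Fintype.piFinset S = {Fin.elim0} := by
      ext a
      rw [Fintype.mem_piFinset, Finset.mem_singleton]
      exact ⟨fun _ => funext fun i => i.elim0, fun _ i => i.elim0⟩
    rw [h1, h2, Finset.sum_singleton, Finset.sum_singleton, lp_zero]
    simp
  | succ n ih =>
    intro X S T hS hT hc hi hZ
    have := Fintype.ofFinite A
    have h1 : ∑ a ∈ Fintype.piFinset S, F (lp a) =
        ∑ x ∈ S 0, ∑ b ∈ Fintype.piFinset (fun i : Fin n => S i.succ), F (x * lp b) := by
      rw [← Finset.sum_product']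
      refine Finset.sum_nbij' (fun a => (a 0, fun i : Fin n => a i.succ))
        (fun q => Fin.cons q.1 q.2) ?_ ?_ ?_ ?_ ?_
      · intro a ha
        rw [Fintype.mem_piFinset] at ha
        rw [Finset.mem_product, Fintype.mem_piFinset]
        exact ⟨ha 0, fun i => ha i.succ⟩
      · rintro ⟨x, b⟩ hq
        rw [Finset.mem_product, Fintype.mem_piFinset] at hq
        rw [Fintype.mem_piFinset]
        intro i
        refine Fin.cases ?_ (fun j => ?_) i
        · exact hq.1
        · exact hq.2 j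
      · intro a _
        exact Fin.cons_self_tail a
      · rintro ⟨x, b⟩ _
        rfl
      · intro a _
        rw [lp_succ]
    let T' : Finset A := Finset.univ.filter (fun x => x ∈ ⨆ i : Fin n, X i.succ)
    have hT' : ∀ x, x ∈ T' ↔ x ∈ ⨆ i : Fin n, X i.succ := fun x => by
      rw [Finset.mem_filter]
      exact ⟨fun h => h.2, fun h => ⟨Finset.mem_univ _, h⟩⟩
    have hle : (⨆ i : Fin n, X i.succ) ≤ ⨆ (j) (_ : j ≠ (0 : Fin (n + 1))), X j := by
      refine iSup_le fun i => ?_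
      exact le_iSup₂_of_le (f := fun k (_ : k ≠ (0 : Fin (n + 1))) => X k) i.succ
        (Fin.succ_ne_zero i) le_rfl
    have h2 : ∀ x : A, ∑ b ∈ Fintype.piFinset (fun i : Fin n => S i.succ), F (x * lp b) =
        (Nat.card Z : R) ^ (n - 1) * ∑ y ∈ T', F (x * y) := by
      intro x
      refine ih (fun y => F (x * y)) (fun i => X i.succ) (fun i => S i.succ) T'
        (fun i => hS i.succ) hT' ?_ ?_ (fun i => hZ i.succ)
      · exact fun i j hij => hc i.succ j.succ fun h => hij (Fin.succ_injective n h)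
      · intro i
        refine le_trans (inf_le_inf_left _ ?_) (hi i.succ)
        refine iSup_le fun j => iSup_le fun hj => ?_
        exact le_iSup₂_of_le (f := fun k (_ : k ≠ i.succ) => X k) j.succ
          (fun h => hj (Fin.succ_injective n h)) le_rfl
    rw [h1, Finset.sum_congr rfl fun x _ => h2 x, ← Finset.mul_sum]
    have hsup : (⨆ i, X i) = X 0 ⊔ ⨆ i : Fin n, X i.succ := by
      apply le_antisymm
      · refine iSup_le fun i => ?_
        refine Fin.cases le_sup_left (fun j => ?_) i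
        exact (le_iSup (fun i : Fin n => X i.succ) j).trans le_sup_right
      · exact sup_le (le_iSup X 0) (iSup_le fun i => le_iSup X i.succ)
    have h3 := sum_pair (X := X 0) (Y := ⨆ i : Fin n, X i.succ) (fun x hx y hy => by
      have h4 : (⨆ i : Fin n, X i.succ) ≤ Subgroup.centralizer {x} := by
        refine iSup_le fun j w hw => ?_
        rw [Subgroup.mem_centralizer_iff]
        rintro v hv
        rw [Set.mem_singleton_iff] at hv
        rw [hv]
        exact hc 0 j.succ (Fin.succ_ne_zero j).symm x hx w hw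
      exact Subgroup.mem_centralizer_iff.1 (h4 hy) x rfl) (S 0) T' T (hS 0) hT'
      (fun x => by rw [hT, hsup]) F
    rw [h3, ← mul_assoc]
    congr 1
    rcases Nat.eq_zero_or_pos n with rfl | hn
    · have h4 : X 0 ⊓ (⨆ i : Fin 0, X i.succ) = ⊥ := by rw [iSup_of_empty, inf_bot_eq]
      rw [h4, Subgroup.card_bot]
      simp
    · have h4 : X 0 ⊓ (⨆ i : Fin n, X i.succ) = Z := by
        apply le_antisymm ((inf_le_inf_left _ hle).trans (hi 0))
        refine le_inf (hZ 0) ?_
        exact (hZ (Fin.succ ⟨0, hn⟩)).trans (le_iSup (fun i : Fin n => X i.succ) ⟨0, hn⟩)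
      rw [h4, ← pow_succ]
      congr 1
      omega

variable {p : ℕ} {Z V : Subgroup A}

/-- (C3 e) -/
theorem sum_lp [Finite A] {R : Type*} [CommSemiring R] {n : ℕ} {W : Fin n → Subgroup A}
    (h : Dec p Z V W) {X : Fin n → Subgroup A} (hX : ∀ i, X i ≤ W i) (hZ : ∀ i, Z ≤ X i)
    (S : Fin n → Finset A) (T : Finset A) (hS : ∀ i x, x ∈ S i ↔ x ∈ X i)
    (hT : ∀ x, x ∈ T ↔ x ∈ ⨆ i, X i) (F : A → R) :
    ∑ a ∈ Fintype.piFinset S, F (lp a) = (Nat.card Z : R) ^ (n - 1) * ∑ v ∈ T, F v := by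
  refine sum_lp_aux F n X S T hS hT ?_ ?_ hZ
  · exact fun i j hij x hx y hy => h.comm i j hij x (hX i hx) y (hX j hy)
  · intro i
    refine le_trans (inf_le_inf (hX i) ?_) (h.indep i)
    exact iSup_mono fun j => iSup_mono fun _ => hX j

theorem card_iSup [Finite A] {n : ℕ} {W : Fin n → Subgroup A}
    (h : Dec p Z V W) {X : Fin n → Subgroup A} (hX : ∀ i, X i ≤ W i) (hZ : ∀ i, Z ≤ X i) :
    ∏ i, Nat.card (X i) = Nat.card Z ^ (n - 1) * Nat.card ↥(⨆ i, X i) := by
  classical
  have := Fintype.ofFinite A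
  have h1 := sum_lp h hX hZ (fun i => Finset.univ.filter (fun x => x ∈ X i))
    (Finset.univ.filter (fun x => x ∈ ⨆ i, X i)) (fun i x => by simp) (fun x => by simp)
    (fun _ => (1 : ℕ))
  rw [Finset.sum_const, Finset.sum_const, smul_eq_mul, smul_eq_mul, mul_one, mul_one,
    Fintype.card_piFinset] at h1
  have h2 : ∀ Y : Subgroup A, Nat.card Y = (Finset.univ.filter (fun x => x ∈ Y)).card := by
    intro Y
    rw [Nat.card_eq_fintype_card, Fintype.card_subtype]
  rw [h2 (⨆ i, X i), Finset.prod_congr rfl fun i _ => h2 (X i)]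
  simpa using h1

theorem relIndex_mul_card' [Finite A] {H K : Subgroup A} (h : H ≤ K) :
    H.relIndex K * Nat.card H = Nat.card K := by
  have h1 := Subgroup.relIndex_mul_relIndex ⊥ H K bot_le h
  rw [Subgroup.relIndex_bot_left, Subgroup.relIndex_bot_left] at h1
  rw [mul_comm]
  exact h1

/-- (C3 f) -/
theorem relIndex_iSup [Finite A] {n : ℕ} {W : Fin n → Subgroup A}
    (h : Dec p Z V W) {X : Fin n → Subgroup A} (hX : ∀ i, X i ≤ W i) (hZ : ∀ i, Z ≤ X i) :
    (⨆ i, X i).relIndex V = ∏ i, (X i).relIndex (W i) := by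
  have h1 := card_iSup h hX hZ
  have h2 := card_iSup h (fun i => le_rfl) h.le
  rw [h.sup] at h2
  have hXV : (⨆ i, X i) ≤ V := by
    rw [← h.sup]
    exact iSup_mono hX
  have h3 := relIndex_mul_card' hXV
  have h4 : (∏ i, (X i).relIndex (W i)) * ∏ i, Nat.card (X i) = ∏ i, Nat.card (W i) := by
    rw [← Finset.prod_mul_distrib]
    exact Finset.prod_congr rfl fun i _ => relIndex_mul_card' (hX i)
  have hpos : 0 < ∏ i, Nat.card (X i) := Finset.prod_pos fun i _ => Nat.card_pos
  apply Nat.eq_of_mul_eq_mul_right hpos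
  rw [h4, h2, h1, ← h3]
  ring

/-- (C3 f) -/
theorem relIndex_stab [Fintype A] {n : ℕ} {W : Fin n → Subgroup A}
    (h : Dec p Z V W) {s : Finset (Subgroup A)} (hs : s ∈ Ch (Hh.PD p V W)) :
    (stab V s).relIndex V = ∏ i, (stab (W i) (prj (W i) s)).relIndex (W i) := by
  rw [stab_eq_iSup h hs]
  exact relIndex_iSup h (fun i => inf_le_left) (fun i => center_le_stab' h i _)

end Pool.Agent.Lib.P0c8ca5.Ll
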