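import Mathlib

/-!
# Chains in products of partially ordered sets

`PrSys D E π`: `D ∪ {⊥}` is the product of the `E i ∪ {⊥}`, with projections `π i`.
`chs D`: the chains of members of `D`; `pr f σ`: the set of the values `≠ ⊥` of `f` on `σ`.
`sum_pr_eq`: the alternating number of the chains with given projections `t i` is the product of the
`(-1) ^ card (t i)`.
`sum_chs`: the alternating sum of a product of functions of the projections is the product of the
alternating sums.
-/

set_option autoImplicit false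

namespace Pool.Agent.Lib.P0c8ca5.Ll

variable {α β : Type*} [PartialOrder α] [SemilatticeSup β] [OrderBot β] {ι : Type*}

open Classical in
/-- the chains of members of `D` -/
noncomputable def chs {γ : Type*} [PartialOrder γ] (D : Finset γ) : Finset (Finset γ) :=
  D.powerset.filter (fun σ => IsChain (· ≤ ·) (σ : Set γ))

theorem mem_chs {γ : Type*} [PartialOrder γ] {D σ : Finset γ} :
    σ ∈ chs D ↔ σ ⊆ D ∧ IsChain (· ≤ ·) (σ : Set γ) := by
  classical
  unfold chs
  rw [Finset.mem_filter, Finset.mem_powerset]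

open Classical in
/-- the set of the values `≠ ⊥` of `f` on `σ` -/
noncomputable def pr {α : Type*} (f : α → β) (σ : Finset α) : Finset β := (σ.image f).erase ⊥

theorem mem_pr {α : Type*} {f : α → β} {σ : Finset α} {b : β} :
    b ∈ pr f σ ↔ b ≠ ⊥ ∧ ∃ a ∈ σ, f a = b := by
  classical
  unfold pr
  rw [Finset.mem_erase, Finset.mem_image]

/-- `D ∪ {⊥}` is the product of the `E i ∪ {⊥}` -/
structure PrSys (D : Finset α) (E : ι → Finset β) (π : ι → α → β) : Prop where
  le_iff : ∀ x ∈ D, ∀ y ∈ D, x ≤ y ↔ ∀ i, π i x ≤ π i y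
  mem : ∀ x ∈ D, ∀ i, π i x = ⊥ ∨ π i x ∈ E i
  ne : ∀ x ∈ D, ∃ i, π i x ≠ ⊥
  nbot : ∀ i, ⊥ ∉ E i
  surj : ∀ b : ι → β, (∀ i, b i = ⊥ ∨ b i ∈ E i) → (∃ i, b i ≠ ⊥) → ∃ x ∈ D, ∀ i, π i x = b i

section

variable {D : Finset α} {E : ι → Finset β} {π : ι → α → β}

theorem PrSys.pr_mem (h : PrSys D E π) {σ : Finset α} (hσ : σ ∈ chs D) (i : ι) :
    pr (π i) σ ∈ chs (E i) := by
  rw [mem_chs] at hσ ⊢
  refine ⟨fun b hb => ?_, ?_⟩
  · obtain ⟨h1, a, ha, rfl⟩ := mem_pr.1 hb
    exact (h.mem a (hσ.1 ha) i).resolve_left h1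
  · intro b hb b' hb' hne
    obtain ⟨-, a, ha, rfl⟩ := mem_pr.1 hb
    obtain ⟨-, a', ha', rfl⟩ := mem_pr.1 hb'
    have hne' : a ≠ a' := fun h => hne (by rw [h])
    rcases hσ.2 ha ha' hne' with h1 | h1
    · exact Or.inl ((h.le_iff a (hσ.1 ha) a' (hσ.1 ha')).1 h1 i)
    · exact Or.inr ((h.le_iff a' (hσ.1 ha') a (hσ.1 ha)).1 h1 i)

theorem sup_mem_of_chain {t : Finset β} (ht : IsChain (· ≤ ·) (t : Set β)) :
    t.sup id = ⊥ ∨ t.sup id ∈ t := by
  classical
  induction t using Finset.induction_on with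
  | empty => left; exact Finset.sup_empty
  | insert a s ha ih =>
    rw [Finset.sup_insert]
    have hs : IsChain (· ≤ ·) (s : Set β) := ht.mono (by
      intro x hx; exact Finset.mem_insert_of_mem hx)
    rcases ih hs with h1 | h1
    · right
      rw [h1, sup_bot_eq]
      exact Finset.mem_insert_self a s
    · right
      have hne : a ≠ s.sup id := fun h => ha (h ▸ h1)
      rcases ht (Finset.mem_insert_self a s) (Finset.mem_insert_of_mem h1) hne with h2 | h2
      · have h3 : id a ≤ s.sup id := h2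
        rw [sup_eq_right.2 h3]
        exact Finset.mem_insert_of_mem h1
      · have h3 : s.sup id ≤ id a := h2
        rw [sup_eq_left.2 h3]
        exact Finset.mem_insert_self a s

theorem sup_ne_bot {t : Finset β} (h0 : ⊥ ∉ t) (hne : t ≠ ∅) : t.sup id ≠ ⊥ := by
  intro h1
  obtain ⟨a, ha⟩ := Finset.nonempty_iff_ne_empty.2 hne
  have h2 : a ≤ t.sup id := Finset.le_sup (f := id) ha
  rw [h1, le_bot_iff] at h2
  exact h0 (h2 ▸ ha)

open Classical in
/-- the alternating number of the chains with projections contained in `t` -/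
theorem PrSys.sum_subset (h : PrSys D E π) {R : Type*} [CommRing R] (t : ι → Finset β)
    (ht : ∀ i, t i ∈ chs (E i)) :
    ∑ σ ∈ (chs D).filter (fun σ => ∀ i, pr (π i) σ ⊆ t i), ((-1 : R)) ^ σ.card =
      if ∀ i, t i = ∅ then 1 else 0 := by
  split_ifs with h0
  · have h1 : (chs D).filter (fun σ => ∀ i, pr (π i) σ ⊆ t i) = {∅} := by
      ext σ
      rw [Finset.mem_filter, Finset.mem_singleton]
      constructor
      · rintro ⟨h2, h3⟩
        rw [Finset.eq_empty_iff_forall_notMem]
        intro x hx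
        have hxD := (mem_chs.1 h2).1 hx
        obtain ⟨i, hi⟩ := h.ne x hxD
        have h4 := h3 i (mem_pr.2 ⟨hi, x, hx, rfl⟩)
        rw [h0 i] at h4
        exact absurd h4 (Finset.notMem_empty _)
      · rintro rfl
        refine ⟨mem_chs.2 ⟨Finset.empty_subset _, ?_⟩, fun i => ?_⟩
        · simp
        · intro b hb
          obtain ⟨-, a, ha, -⟩ := mem_pr.1 hb
          exact absurd ha (Finset.notMem_empty _)
    rw [h1, Finset.sum_singleton, Finset.card_empty, pow_zero]
  · push Not at h0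
    obtain ⟨i₀, hi₀⟩ := h0
    obtain ⟨M, hMD, hM⟩ := h.surj (fun i => (t i).sup id) (fun i => by
      rcases sup_mem_of_chain (mem_chs.1 (ht i)).2 with h1 | h1
      · exact Or.inl h1
      · exact Or.inr ((mem_chs.1 (ht i)).1 h1))
      ⟨i₀, sup_ne_bot (fun h1 => h.nbot i₀ ((mem_chs.1 (ht i₀)).1 h1)) hi₀.ne_empty⟩
    have key : ∀ σ ∈ (chs D).filter (fun σ => ∀ i, pr (π i) σ ⊆ t i),
        insert M σ ∈ (chs D).filter (fun σ => ∀ i, pr (π i) σ ⊆ t i) := by
      intro σ hσ
      rw [Finset.mem_filter, mem_chs] at hσ ⊢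
      obtain ⟨⟨h1, h2⟩, h3⟩ := hσ
      have hle : ∀ x ∈ σ, x ≤ M := by
        intro x hx
        rw [h.le_iff x (h1 hx) M hMD]
        intro i
        rw [hM i]
        by_cases hb : π i x = ⊥
        · rw [hb]; exact bot_le
        · exact Finset.le_sup (f := id) (h3 i (mem_pr.2 ⟨hb, x, hx, rfl⟩))
      refine ⟨⟨Finset.insert_subset hMD h1, ?_⟩, ?_⟩
      · rw [Finset.coe_insert]
        exact h2.insert fun x hx _ => Or.inr (hle x hx)
      · intro i b hb
        obtain ⟨hb0, a, ha, rfl⟩ := mem_pr.1 hb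
        rcases Finset.mem_insert.1 ha with rfl | ha
        · rw [hM i] at hb0 ⊢
          exact (sup_mem_of_chain (mem_chs.1 (ht i)).2).resolve_left hb0
        · exact h3 i (mem_pr.2 ⟨hb0, a, ha, rfl⟩)
    have key2 : ∀ σ ∈ (chs D).filter (fun σ => ∀ i, pr (π i) σ ⊆ t i),
        σ.erase M ∈ (chs D).filter (fun σ => ∀ i, pr (π i) σ ⊆ t i) := by
      intro σ hσ
      rw [Finset.mem_filter, mem_chs] at hσ ⊢
      obtain ⟨⟨h1, h2⟩, h3⟩ := hσ
      refine ⟨⟨(Finset.erase_subset M σ).trans h1, h2.mono (Finset.erase_subset M σ)⟩, ?_⟩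
      intro i b hb
      obtain ⟨hb0, a, ha, rfl⟩ := mem_pr.1 hb
      exact h3 i (mem_pr.2 ⟨hb0, a, Finset.mem_of_mem_erase ha, rfl⟩)
    refine Finset.sum_involution (fun σ _ => if M ∈ σ then σ.erase M else insert M σ)
      ?_ ?_ ?_ ?_
    · intro σ hσ
      by_cases hMσ : M ∈ σ
      · simp only [if_pos hMσ]
        rw [← Finset.card_erase_add_one hMσ, pow_succ]
        ring
      · simp only [if_neg hMσ]
        rw [Finset.card_insert_of_notMem hMσ, pow_succ]
        ring
    · intro σ hσ _ heq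
      by_cases hMσ : M ∈ σ
      · simp only [if_pos hMσ] at heq
        exact Finset.notMem_erase M σ (by rw [heq]; exact hMσ)
      · simp only [if_neg hMσ] at heq
        exact hMσ (heq ▸ Finset.mem_insert_self M σ)
    · intro σ hσ
      by_cases hMσ : M ∈ σ
      · simp only [if_pos hMσ]
        exact key2 σ hσ
      · simp only [if_neg hMσ]
        exact key σ hσ
    · intro σ hσ
      by_cases hMσ : M ∈ σ
      · simp only [if_pos hMσ, if_neg (Finset.notMem_erase M σ)]
        exact Finset.insert_erase hMσ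
      · simp only [if_neg hMσ, if_pos (Finset.mem_insert_self M σ)]
        exact Finset.erase_insert hMσ

theorem chs_of_subset {γ : Type*} [PartialOrder γ] {D t s : Finset γ} (ht : t ∈ chs D)
    (hs : s ⊆ t) : s ∈ chs D := by
  rw [mem_chs] at ht ⊢
  exact ⟨hs.trans ht.1, ht.2.mono hs⟩

open Classical in
/-- signed Delannoy numbers: the alternating number of the chains with given projections -/
theorem PrSys.sum_pr_eq [Fintype ι] (h : PrSys D E π) {R : Type*} [CommRing R] :
    ∀ (n : ℕ) (t : ι → Finset β), ∑ i, (t i).card = n → (∀ i, t i ∈ chs (E i)) →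
    ∑ σ ∈ (chs D).filter (fun σ => ∀ i, pr (π i) σ = t i), ((-1 : R)) ^ σ.card =
      ∏ i, (-1) ^ (t i).card := by
  intro n
  induction n using Nat.strong_induction_on with
  | _ n ih =>
  intro t hn ht
  have h1 : ∑ σ ∈ (chs D).filter (fun σ => ∀ i, pr (π i) σ ⊆ t i), ((-1 : R)) ^ σ.card =
      if ∀ i, t i = ∅ then 1 else 0 := by
    convert h.sum_subset (R := R) t ht
  -- split the sum over the projections
  have h2 : ∑ σ ∈ (chs D).filter (fun σ => ∀ i, pr (π i) σ ⊆ t i), ((-1 : R)) ^ σ.card =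
      ∑ s ∈ Fintype.piFinset (fun i => (t i).powerset),
        ∑ σ ∈ (chs D).filter (fun σ => ∀ i, pr (π i) σ = s i), ((-1 : R)) ^ σ.card := by
    rw [← Finset.sum_fiberwise_of_maps_to (s := (chs D).filter (fun σ => ∀ i, pr (π i) σ ⊆ t i))
      (t := Fintype.piFinset (fun i => (t i).powerset)) (g := fun σ i => pr (π i) σ)]
    · apply Finset.sum_congr rfl
      intro s hs
      rw [Fintype.mem_piFinset] at hs
      apply Finset.sum_congr _ fun _ _ => rfl
      ext σ
      rw [Finset.mem_filter, Finset.mem_filter, Finset.mem_filter]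
      constructor
      · rintro ⟨⟨h3, -⟩, h4⟩
        exact ⟨h3, fun i => congrFun h4 i⟩
      · rintro ⟨h3, h4⟩
        exact ⟨⟨h3, fun i => by rw [h4 i]; exact Finset.mem_powerset.1 (hs i)⟩, funext h4⟩
    · intro σ hσ
      rw [Fintype.mem_piFinset]
      intro i
      rw [Finset.mem_powerset]
      exact (Finset.mem_filter.1 hσ).2 i
  have h3 : ∑ s ∈ Fintype.piFinset (fun i => (t i).powerset), ∏ i, (-1 : R) ^ (s i).card =
      if ∀ i, t i = ∅ then 1 else 0 := by
    have e := Finset.prod_univ_sum (fun i => (t i).powerset) (fun _ s => (-1 : R) ^ s.card)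
    rw [← e]
    have h4 : ∀ i, ∑ s ∈ (t i).powerset, (-1 : R) ^ s.card = if t i = ∅ then 1 else 0 := by
      intro i
      have := Finset.sum_powerset_neg_one_pow_card (x := t i)
      have h5 := congrArg (Int.cast (R := R)) this
      push_cast at h5
      exact h5
    rw [Finset.prod_congr rfl fun i _ => h4 i]
    split_ifs with h5
    · exact Finset.prod_eq_one fun i _ => if_pos (h5 i)
    · push Not at h5
      obtain ⟨i, hi⟩ := h5
      exact Finset.prod_eq_zero (Finset.mem_univ i) (if_neg hi.ne_empty)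
  -- compare
  have htm : t ∈ Fintype.piFinset (fun i => (t i).powerset) := by
    rw [Fintype.mem_piFinset]
    exact fun i => Finset.mem_powerset_self _
  have h6 : ∑ s ∈ Fintype.piFinset (fun i => (t i).powerset),
      ∑ σ ∈ (chs D).filter (fun σ => ∀ i, pr (π i) σ = s i), ((-1 : R)) ^ σ.card =
      ∑ s ∈ Fintype.piFinset (fun i => (t i).powerset), ∏ i, (-1 : R) ^ (s i).card := by
    rw [← h2, h1, h3]
  rw [← Finset.add_sum_erase _ _ htm, ← Finset.add_sum_erase _ _ htm] at h6
  have h7 : ∑ s ∈ (Fintype.piFinset (fun i => (t i).powerset)).erase t,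
      ∑ σ ∈ (chs D).filter (fun σ => ∀ i, pr (π i) σ = s i), ((-1 : R)) ^ σ.card =
      ∑ s ∈ (Fintype.piFinset (fun i => (t i).powerset)).erase t, ∏ i, (-1 : R) ^ (s i).card := by
    apply Finset.sum_congr rfl
    intro s hs
    rw [Finset.mem_erase, Fintype.mem_piFinset] at hs
    refine ih (∑ i, (s i).card) ?_ s rfl fun i =>
      chs_of_subset (ht i) (Finset.mem_powerset.1 (hs.2 i))
    rw [← hn]
    obtain ⟨i, hi⟩ := Function.ne_iff.1 hs.1
    refine Finset.sum_lt_sum (fun j _ => Finset.card_le_card (Finset.mem_powerset.1 (hs.2 j)))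
      ⟨i, Finset.mem_univ i, ?_⟩
    exact Finset.card_lt_card (lt_of_le_of_ne (Finset.mem_powerset.1 (hs.2 i)) hi)
  rw [h7] at h6
  exact add_right_cancel h6

open Classical in
/-- the alternating sum of a product of functions of the projections -/
theorem PrSys.sum_chs [Fintype ι] (h : PrSys D E π) {R : Type*} [CommRing R]
    (F : ι → Finset β → R) :
    ∑ σ ∈ chs D, (-1) ^ σ.card * ∏ i, F i (pr (π i) σ) =
      ∏ i, ∑ t ∈ chs (E i), (-1) ^ t.card * F i t := by
  rw [Finset.prod_univ_sum]
  rw [← Finset.sum_fiberwise_of_maps_to (s := chs D) (t := Fintype.piFinset (fun i => chs (E i)))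
    (g := fun σ i => pr (π i) σ)]
  · apply Finset.sum_congr rfl
    intro t ht
    rw [Fintype.mem_piFinset] at ht
    rw [Finset.prod_mul_distrib, ← h.sum_pr_eq _ t rfl ht, Finset.sum_mul]
    have e : (chs D).filter (fun σ => (fun i => pr (π i) σ) = t) =
        (chs D).filter (fun σ => ∀ i, pr (π i) σ = t i) := by
      ext σ
      rw [Finset.mem_filter, Finset.mem_filter, funext_iff]
    rw [e]
    apply Finset.sum_congr rfl
    intro σ hσ
    rw [Finset.mem_filter] at hσ
    congr 1
    apply Finset.prod_congr rfl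
    intro i _
    rw [hσ.2 i]
  · intro σ hσ
    rw [Fintype.mem_piFinset]
    exact fun i => h.pr_mem hσ i

end

end Pool.Agent.Lib.P0c8ca5.Ll
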