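import Pool.Agent.Lib.P0c8ca5L.Prod

/-!
# The family of the p-subgroups of product type

`pj p Z W R i`: the projection of the p-subgroup `R` of `V` to `W i`: the elements `w` of `W i` of p-power order
with `w u ∈ R` for some `u` in the product of the other factors.
`cl p Z W R`: the product of the projections, the closure of `R`.
`famP_fam`: `Fam p L V (famP p V W)` if the elements of `L` permute the `W i`.
-/

set_option autoImplicit false

namespace Pool.Agent.Lib.P0c8ca5.Jj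

open Subgroup Ll Gg

variable {p : ℕ} {A : Type*} [Group A] {Z V : Subgroup A} {ι : Type*} {W : ι → Subgroup A}

section dec

variable (h : Dec p Z V W)
include h

/-- the elements of `W i` that are components of elements of `R` -/
def Dec.tp (h : Dec p Z V W) (R : Subgroup A) (i : ι) : Subgroup A where
  carrier := {w | w ∈ W i ∧ ∃ u ∈ Z ⊔ ⨆ (j) (_ : j ≠ i), W j, w * u ∈ R}
  one_mem' := ⟨(W i).one_mem, 1, Subgroup.one_mem _, by rw [one_mul]; exact R.one_mem⟩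
  mul_mem' := by
    rintro a b ⟨ha, u, hu, hau⟩ ⟨hb, v, hv, hbv⟩
    refine ⟨(W i).mul_mem ha hb, u * v, Subgroup.mul_mem _ hu hv, ?_⟩
    have e : a * b * (u * v) = a * u * (b * v) := by
      calc a * b * (u * v) = a * (b * u) * v := by group
        _ = a * (u * b) * v := by rw [Dec.comm_others h i b hb u hu]
        _ = a * u * (b * v) := by group
    rw [e]
    exact R.mul_mem hau hbv
  inv_mem' := by
    rintro a ⟨ha, u, hu, hau⟩
    refine ⟨(W i).inv_mem ha, u⁻¹, Subgroup.inv_mem _ hu, ?_⟩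
    have e : a⁻¹ * u⁻¹ = (a * u)⁻¹ := by
      rw [Dec.comm_others h i a ha u hu]; group
    rw [e]
    exact R.inv_mem hau

theorem Dec.mem_tp {R : Subgroup A} {i : ι} {w : A} :
    w ∈ h.tp R i ↔ w ∈ W i ∧ ∃ u ∈ Z ⊔ ⨆ (j) (_ : j ≠ i), W j, w * u ∈ R := Iff.rfl

theorem Dec.z_mem_tp {R : Subgroup A} {i : ι} {z : A} (hz : z ∈ Z) : z ∈ h.tp R i :=
  ⟨h.le i hz, z⁻¹, Subgroup.inv_mem _ ((le_sup_left : Z ≤ _) hz), by
    rw [mul_inv_cancel]; exact R.one_mem⟩

theorem Dec.tp_pow [Finite ι] {R : Subgroup A} (hR : IsPGroup p R) {i : ι} {w : A}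
    (hw : w ∈ h.tp R i) : ∃ n : ℕ, w ^ p ^ n ∈ Z := by
  obtain ⟨h1, u, hu, h2⟩ := hw
  obtain ⟨n, hn⟩ := hR ⟨w * u, h2⟩
  refine ⟨n, ?_⟩
  have h3 : (w * u) ^ p ^ n = 1 := congrArg Subtype.val hn
  have hc : Commute w u := Dec.comm_others h i w h1 u hu
  rw [hc.mul_pow] at h3
  apply Dec.mem_Z h ((W i).pow_mem h1 _)
  have h4 : w ^ p ^ n = (u ^ p ^ n)⁻¹ := eq_inv_of_mul_eq_one_left h3
  rw [h4]
  exact Subgroup.inv_mem _ (Subgroup.pow_mem _ hu _)

/-- the projection of `R` to `W i` -/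
def Dec.pj [Fact p.Prime] [Finite A] [Finite ι] (h : Dec p Z V W) (R : Subgroup A)
    (hR : IsPGroup p R) (i : ι) : Subgroup A where
  carrier := {w | w ∈ h.tp R i ∧ ∃ n : ℕ, w ^ p ^ n = 1}
  one_mem' := ⟨Subgroup.one_mem _, 0, one_pow _⟩
  mul_mem' := by
    rintro a b ⟨ha, m, hm⟩ ⟨hb, n, hn⟩
    refine ⟨Subgroup.mul_mem _ ha hb, ?_⟩
    obtain ⟨r, hr⟩ := mul_ppow (p := p) (D := ↥(h.tp R i)) (x := ⟨a, ha⟩) (y := ⟨b, hb⟩)
      (by
        intro x
        obtain ⟨m, hm⟩ := h.tp_pow hR x.2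
        refine ⟨m, Subgroup.mem_center_iff.2 fun g => Subtype.ext ?_⟩
        exact (h.zcomm hm g.1).symm)
      ⟨m, Subtype.ext hm⟩ ⟨n, Subtype.ext hn⟩
    exact ⟨r, congrArg Subtype.val hr⟩
  inv_mem' := by
    rintro a ⟨ha, m, hm⟩
    exact ⟨Subgroup.inv_mem _ ha, m, by rw [inv_pow, hm, inv_one]⟩

variable [Fact p.Prime] [Finite A] [Finite ι]

theorem Dec.mem_pj {R : Subgroup A} {hR : IsPGroup p R} {i : ι} {w : A} :
    w ∈ h.pj R hR i ↔ w ∈ h.tp R i ∧ ∃ n : ℕ, w ^ p ^ n = 1 := Iff.rfl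

theorem Dec.pj_le {R : Subgroup A} (hR : IsPGroup p R) (i : ι) : h.pj R hR i ≤ W i :=
  fun _ hw => hw.1.1

theorem Dec.pj_isPGroup {R : Subgroup A} (hR : IsPGroup p R) (i : ι) :
    IsPGroup p (h.pj R hR i) := by
  rintro ⟨w, hw, n, hn⟩
  exact ⟨n, Subtype.ext hn⟩

theorem Dec.tp_le {R : Subgroup A} (hR : IsPGroup p R) (i : ι) : h.tp R i ≤ Z ⊔ h.pj R hR i := by
  intro w hw
  obtain ⟨n, hn⟩ := h.tp_pow hR hw
  have hcop : (p ^ n).Coprime (orderOf (w ^ p ^ n)) := by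
    apply Nat.Coprime.pow_left
    rw [(Fact.out : p.Prime).coprime_iff_not_dvd]
    intro hd
    apply h.pr
    refine hd.trans ?_
    have : orderOf (⟨w ^ p ^ n, hn⟩ : Z) = orderOf (w ^ p ^ n) := Subgroup.orderOf_mk _ hn
    rw [← this]
    exact orderOf_dvd_natCard _
  obtain ⟨m, hm⟩ := exists_pow_eq_self_of_coprime hcop
  set z := (w ^ p ^ n) ^ m with hz
  have hzZ : z ∈ Z := Z.pow_mem hn m
  have hzp : z ^ p ^ n = w ^ p ^ n := by
    rw [hz, ← pow_mul, mul_comm, pow_mul]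
    exact hm
  have e : w = z * (z⁻¹ * w) := by group
  rw [e]
  refine Subgroup.mul_mem _ ((le_sup_left : Z ≤ _) hzZ) ((le_sup_right : h.pj R hR i ≤ _) ?_)
  refine ⟨Subgroup.mul_mem _ (Subgroup.inv_mem _ (h.z_mem_tp hzZ)) hw, n, ?_⟩
  have hc : Commute z⁻¹ w := h.zcomm (Z.inv_mem hzZ) w
  rw [hc.mul_pow, inv_pow, hzp, inv_mul_cancel]

/-- the closure: the product of the projections -/
def Dec.cl (h : Dec p Z V W) (R : Subgroup A) (hR : IsPGroup p R) : Subgroup A :=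
  ⨆ i, h.pj R hR i

theorem Dec.cl_isPGroup {R : Subgroup A} (hR : IsPGroup p R) : IsPGroup p (h.cl R hR) :=
  h.isPGroup_iSup (h.pj_le hR) (h.pj_isPGroup hR)

theorem Dec.le_cl {R : Subgroup A} (hR : IsPGroup p R) (hRV : R ≤ V) : R ≤ h.cl R hR := by
  have h1 : R ≤ Z ⊔ ⨆ i, h.tp R i :=
    Dec.le_of_proj h hRV (fun i w hw => hw.1) (fun i w hw u hu hwu => ⟨hw, u, hu, hwu⟩)
  have h2 : Z ⊔ (⨆ i, h.tp R i) ≤ Z ⊔ h.cl R hR := by
    refine sup_le le_sup_left (iSup_le fun i => (h.tp_le hR i).trans ?_)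
    exact sup_le_sup le_rfl (le_iSup (fun i => h.pj R hR i) i)
  intro r hr
  obtain ⟨z, hz, y, hy, hzy⟩ := mem_sup_of_commute (P := Z) (R := h.cl R hR)
    (fun z hz y _ => (h.zcomm hz y).symm) r (h2 (h1 hr))
  obtain ⟨m, hm⟩ := hR ⟨r, hr⟩
  obtain ⟨n, hn⟩ := h.cl_isPGroup hR ⟨y, hy⟩
  have hm' : r ^ p ^ m = 1 := congrArg Subtype.val hm
  have hn' : y ^ p ^ n = 1 := congrArg Subtype.val hn
  have hz1 : z = 1 := by
    apply eq_one_of_pow h.pr hz (n := m + n)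
    have hc : Commute z y := h.zcomm hz y
    have h3 : r ^ p ^ (m + n) = 1 := by rw [pow_add, pow_mul, hm', one_pow]
    have h4 : y ^ p ^ (m + n) = 1 := by
      rw [pow_add, mul_comm, pow_mul, hn', one_pow]
    rw [← hzy, hc.mul_pow, h4, mul_one] at h3
    exact h3
  rw [← hzy, hz1, one_mul]
  exact hy

theorem Dec.cl_pt {R : Subgroup A} (hR : IsPGroup p R) : PT W (h.cl R hR) :=
  h.pt_iSup (h.pj_le hR) (h.pj_isPGroup hR)

omit h in
theorem mem_normalizer_of_comm {Q : Subgroup A} {x : A} (hx : ∀ y ∈ Q, x * y = y * x) :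
    x ∈ Subgroup.normalizer (Q : Set A) := by
  rw [← cg_eq_self_iff]
  ext y
  rw [mem_cg]
  have key : ∀ z ∈ Q, x * z * x⁻¹ = z := fun z hz => by rw [hx z hz]; group
  constructor
  · intro hy
    have h1 := key _ hy
    have e : x * (x⁻¹ * y * x) * x⁻¹ = y := by group
    rw [e] at h1
    rwa [← h1] at hy
  · intro hy
    have h1 := hx y hy
    have e : x⁻¹ * y * x = y := by rw [mul_assoc, ← h1]; group
    rwa [e]

/-- the closure normalises the product type subgroups normalised by `R` -/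
theorem Dec.cl_le_normalizer {R Q : Subgroup A} (hR : IsPGroup p R) (hRV : R ≤ V)
    (hQ : PT W Q) (hRQ : R ≤ Subgroup.normalizer (Q : Set A)) :
    h.cl R hR ≤ Subgroup.normalizer (Q : Set A) := by
  refine iSup_le fun i w hw => ?_
  obtain ⟨⟨hwW, u, hu, hwu⟩, -⟩ := hw
  have hwuV : w * u ∈ V := hRV hwu
  apply hQ.mem_normalizer
  intro j
  by_cases hj : j = i
  · subst hj
    -- `w = (w u) u⁻¹`
    have h1 : w * u ∈ Subgroup.normalizer ((Q ⊓ W j : Subgroup A) : Set A) :=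
      mem_normalizer_inf (hRQ hwu) (norBy_iff.1 (h.norBy j) hwuV)
    have h2 : u ∈ Subgroup.normalizer ((Q ⊓ W j : Subgroup A) : Set A) := by
      apply mem_normalizer_of_comm
      intro y hy
      exact (Dec.comm_others h j y hy.2 u hu).symm
    have e : w = w * u * u⁻¹ := by group
    rw [e]
    exact Subgroup.mul_mem _ h1 (Subgroup.inv_mem _ h2)
  · apply mem_normalizer_of_comm
    intro y hy
    exact h.comm i j (Ne.symm hj) w hwW y hy.2

/-- equivariance of the projections -/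
theorem Dec.pj_cg {g : A} {s : Equiv.Perm ι} (hs : ∀ i, cg g (W i) = W (s i)) {R : Subgroup A}
    (hR : IsPGroup p R) (hR' : IsPGroup p (cg g R)) (i : ι) :
    cg g (h.pj R hR i) ≤ h.pj (cg g R) hR' (s i) := by
  have hZ : cg g Z = Z := cj_of_normal (normal_of_cen h.cen) g
  intro x hx
  rw [mem_cg] at hx
  obtain ⟨⟨hxW, u, hu, hxu⟩, n, hn⟩ := hx
  refine ⟨⟨?_, g * u * g⁻¹, ?_, ?_⟩, n, ?_⟩
  · rw [← hs i, mem_cg]
    exact hxW
  · have h1 : g * u * g⁻¹ ∈ cg g (Z ⊔ ⨆ (j) (_ : j ≠ i), W j) := by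
      rw [mem_cg]
      have e : g⁻¹ * (g * u * g⁻¹) * g = u := by group
      rwa [e]
    have h2 : cg g (Z ⊔ ⨆ (j) (_ : j ≠ i), W j) ≤ Z ⊔ ⨆ (j) (_ : j ≠ s i), W j := by
      rw [cg_sup, hZ, cg_iSup]
      refine sup_le_sup le_rfl (iSup_le fun j => ?_)
      rw [cg_iSup]
      refine iSup_le fun hj => ?_
      rw [hs j]
      exact le_iSup₂_of_le (f := fun k (_ : k ≠ s i) => W k) (s j)
        (fun h' => hj (s.injective h')) le_rfl
    exact h2 h1
  · rw [mem_cg]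
    have e : g⁻¹ * (x * (g * u * g⁻¹)) * g = g⁻¹ * x * g * u := by group
    rwa [e]
  · have e : x = g * (g⁻¹ * x * g) * g⁻¹ := by group
    rw [e, conj_pow, hn]
    group

theorem Dec.cl_cg_le {g : A} {s : Equiv.Perm ι} (hs : ∀ i, cg g (W i) = W (s i)) {R : Subgroup A}
    (hR : IsPGroup p R) (hR' : IsPGroup p (cg g R)) :
    cg g (h.cl R hR) ≤ h.cl (cg g R) hR' := by
  unfold Dec.cl
  rw [cg_iSup]
  refine iSup_le fun i => ?_
  exact (h.pj_cg hs hR hR' i).trans (le_iSup (fun i => h.pj (cg g R) hR' i) (s i))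

/-- equivariance of the closure -/
theorem Dec.cl_cg {g : A} {s : Equiv.Perm ι} (hs : ∀ i, cg g (W i) = W (s i)) {R : Subgroup A}
    (hR : IsPGroup p R) (hR' : IsPGroup p (cg g R)) :
    h.cl (cg g R) hR' = cg g (h.cl R hR) := by
  apply le_antisymm _ (h.cl_cg_le hs hR hR')
  have hs' : ∀ i, cg g⁻¹ (W i) = W (s⁻¹ i) := by
    intro i
    have h1 := hs (s⁻¹ i)
    have e : s (s⁻¹ i) = i := s.apply_symm_apply i
    rw [e] at h1
    rw [← h1, cj_inv_cj]
  have hR'' : IsPGroup p (cg g⁻¹ (cg g R)) := by rw [cj_inv_cj]; exact hR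
  have h1 := h.cl_cg_le hs' hR' hR''
  have h2 := cj_mono g h1
  rw [cj_cj_inv] at h2
  have h3 : h.cl (cg g⁻¹ (cg g R)) hR'' = h.cl R hR := by
    congr 1
    exact cj_inv_cj g R
  rwa [h3] at h2

omit [Finite A] h [Finite ι] in
theorem PT.cg {g : A} (hs : ∀ i, ∃ j, cg g (W i) = W j) {Q : Subgroup A} (hQ : PT W Q) :
    PT W (cg g Q) := by
  apply PT.of_le
  conv_lhs => rw [hQ]
  rw [cg_iSup]
  refine iSup_le fun i => ?_
  obtain ⟨j, hj⟩ := hs i
  refine le_trans ?_ (le_iSup (fun j => P0c8ca5.cg g Q ⊓ W j) j)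
  refine le_inf (cj_mono g inf_le_left) ?_
  rw [← hj]
  exact cj_mono g inf_le_right

omit [Finite A] h [Finite ι] in
theorem PT.sup {Q R : Subgroup A} (hQ : PT W Q) (hR : PT W R) : PT W (Q ⊔ R) := by
  apply PT.of_le
  refine sup_le ?_ ?_
  · conv_lhs => rw [hQ]
    exact iSup_mono fun i => inf_le_inf_right _ le_sup_left
  · conv_lhs => rw [hR]
    exact iSup_mono fun i => inf_le_inf_right _ le_sup_right

end dec

section fam

variable [Fact p.Prime] [Fintype A] [Finite ι] (h : Dec p Z V W)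
include h

/-- the nontrivial p-subgroups of product type form a family with a closure operator -/
theorem Dec.famP_fam {L : Subgroup A}
    (hL : ∀ g ∈ L, ∃ s : Equiv.Perm ι, ∀ i, cg g (W i) = W (s i)) :
    Fam p L V (famP p V W) := by
  classical
  have hVg : ∀ g ∈ L, cg g V = V := by
    intro g hg
    obtain ⟨s, hs⟩ := hL g hg
    conv_lhs => rw [← h.sup]
    conv_rhs => rw [← h.sup]
    rw [cg_iSup]
    calc (⨆ i, cg g (W i)) = ⨆ i, W (s i) := iSup_congr hs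
      _ = ⨆ i, W i := s.iSup_comp (g := W)
  have hne : ∀ (g : A) (Q : Subgroup A), Q ≠ ⊥ → cg g Q ≠ ⊥ := by
    intro g Q hQ h1
    apply hQ
    rw [← cj_inv_cj g Q, h1, cj_bot]
  refine ⟨fun Q hQ => (mem_famP.1 hQ).1, fun Q hQ => (mem_famP.1 hQ).2.1,
    fun Q hQ => (mem_famP.1 hQ).2.2.1, ?_, ?_, ?_⟩
  · intro g hg Q hQ
    obtain ⟨h1, h2, h3, h4⟩ := mem_famP.1 hQ
    obtain ⟨s, hs⟩ := hL g hg
    rw [mem_famP]
    refine ⟨?_, isPGroup_cg h2, hne g Q h3, h4.cg fun i => ⟨s i, hs i⟩⟩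
    rw [← hVg g hg]
    exact cj_mono g h1
  · intro Q hQ R hR hRQ
    obtain ⟨h1, h2, h3, h4⟩ := mem_famP.1 hQ
    obtain ⟨h1', h2', h3', h4'⟩ := mem_famP.1 hR
    rw [mem_famP]
    refine ⟨sup_le h1 h1', FamAllAux.isPGroup_sup hRQ h2 h2', ?_, h4.sup h4'⟩
    intro h5
    rw [sup_eq_bot_iff] at h5
    exact h3 h5.1
  · refine ⟨fun R => if hR : IsPGroup p R then h.cl R hR else ⊥, fun R hRV hR hR0 => ?_⟩
    simp only [dif_pos hR]
    refine ⟨?_, h.le_cl hR hRV, ?_, ?_⟩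
    · rw [mem_famP]
      refine ⟨Dec.iSup_le_V h (h.pj_le hR), h.cl_isPGroup hR, ?_, h.cl_pt hR⟩
      intro h1
      apply hR0
      rw [eq_bot_iff, ← h1]
      exact h.le_cl hR hRV
    · intro g hg
      obtain ⟨s, hs⟩ := hL g hg
      have hR' : IsPGroup p (cg g R) := isPGroup_cg hR
      rw [dif_pos hR']
      exact h.cl_cg hs hR hR'
    · intro Q hQ hRQ
      exact h.cl_le_normalizer hR hRV (mem_famP.1 hQ).2.2.2 hRQ

end fam

end Pool.Agent.Lib.P0c8ca5.Jj
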