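import Pool.Agent.Lib.P0c8ca5L.Comb
import Pool.Agent.Lib.P0c8ca5J.Dec
import Pool.Agent.Lib.P0c8ca5G.FamAll

/-!
# p-subgroups of product type

For `Dec p Z V W`: `Q` is of product type (`PT W Q`) if it is generated by the `Q ⊓ W i`.
`famP p V W`: the nontrivial p-subgroups of `V` of product type.
`prSys`: the projections `Q ↦ Q ⊓ W i` identify `famP p V W ∪ {⊥}` with the product of the
`famAll p (W i) ∪ {⊥}`, also for the subgroups normalised by a set of elements which normalise the `W i`.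
`famP_fam`: `Fam p L V (famP p V W)`, if the elements of `L` permute the `W i`.
-/

set_option autoImplicit false

namespace Pool.Agent.Lib.P0c8ca5.Jj

open Subgroup Ll Gg

variable {p : ℕ} {A : Type*} [Group A] {Z V : Subgroup A} {ι : Type*} {W : ι → Subgroup A}

theorem eq_one_of_pow [Fact p.Prime] {Z : Subgroup A} [Finite Z] (hZ : ¬ p ∣ Nat.card Z) {z : A}
    (hz : z ∈ Z) {n : ℕ} (hn : z ^ p ^ n = 1) : z = 1 := by
  have h1 : orderOf z ∣ p ^ n := orderOf_dvd_of_pow_eq_one hn
  have h2 : orderOf z ∣ Nat.card Z := by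
    have : orderOf (⟨z, hz⟩ : Z) = orderOf z := Subgroup.orderOf_mk z hz
    rw [← this]
    exact orderOf_dvd_natCard _
  have h3 : Nat.Coprime (p ^ n) (Nat.card Z) :=
    Nat.Coprime.pow_left n (((Fact.out : p.Prime).coprime_iff_not_dvd).2 hZ)
  exact orderOf_eq_one_iff.1 (Nat.eq_one_of_dvd_coprimes h3 h1 h2)

/-- in a finite group whose elements have p-power powers in the centre, the elements of p-power order are
closed under multiplication -/
theorem mul_ppow [Fact p.Prime] {D : Type*} [Group D] [Finite D]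
    (h : ∀ x : D, ∃ m : ℕ, x ^ p ^ m ∈ Subgroup.center D) {x y : D}
    (hx : ∃ n : ℕ, x ^ p ^ n = 1) (hy : ∃ n : ℕ, y ^ p ^ n = 1) : ∃ n : ℕ, (x * y) ^ p ^ n = 1 := by
  have h0 : IsPGroup p (D ⧸ Subgroup.center D) := by
    intro z
    obtain ⟨w, rfl⟩ := QuotientGroup.mk_surjective z
    obtain ⟨m, hw⟩ := h w
    refine ⟨m, ?_⟩
    rw [← QuotientGroup.mk_pow]
    exact (QuotientGroup.eq_one_iff _).2 hw
  obtain ⟨a, ha⟩ := IsPGroup.iff_card.1 h0
  have hind : (Subgroup.center D).index = p ^ a := ha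
  have hpow : ∀ z : D, ((MonoidHom.transferCenterPow D z : Subgroup.center D) : D) = z ^ p ^ a := by
    intro z
    rw [← hind]
    exact MonoidHom.transferCenterPow_apply z
  have h1 : (x * y) ^ p ^ a = x ^ p ^ a * y ^ p ^ a := by
    rw [← hpow, ← hpow, ← hpow, map_mul]
    rfl
  have hc : Commute (x ^ p ^ a) (y ^ p ^ a) := by
    have h2 : x ^ p ^ a ∈ Subgroup.center D := by
      rw [← hpow]
      exact (MonoidHom.transferCenterPow D x).2
    exact (Subgroup.mem_center_iff.1 h2 (y ^ p ^ a)).symm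
  obtain ⟨m, hm⟩ := hx
  obtain ⟨n, hn⟩ := hy
  refine ⟨a + (m + n), ?_⟩
  rw [pow_add, pow_mul, h1, hc.mul_pow, ← pow_mul, ← pow_mul]
  have e1 : x ^ (p ^ a * p ^ (m + n)) = 1 := by
    rw [show p ^ a * p ^ (m + n) = p ^ m * (p ^ a * p ^ n) by ring, pow_mul, hm, one_pow]
  have e2 : y ^ (p ^ a * p ^ (m + n)) = 1 := by
    rw [show p ^ a * p ^ (m + n) = p ^ n * (p ^ a * p ^ m) by ring, pow_mul, hn, one_pow]
  rw [e1, e2, one_mul]

/-- `Q` is generated by the `Q ⊓ W i` -/
def PT (W : ι → Subgroup A) (Q : Subgroup A) : Prop := Q = ⨆ i, Q ⊓ W i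

theorem PT.of_le {Q : Subgroup A} (h : Q ≤ ⨆ i, Q ⊓ W i) : PT W Q :=
  le_antisymm h (iSup_le fun _ => inf_le_left)

open Classical in
/-- the nontrivial p-subgroups of `V` of product type -/
noncomputable def famP (p : ℕ) [Fintype A] (V : Subgroup A) (W : ι → Subgroup A) :
    Finset (Subgroup A) := (famAll p V).filter (fun Q => PT W Q)

theorem mem_famP [Fintype A] {Q : Subgroup A} :
    Q ∈ famP p V W ↔ Q ≤ V ∧ IsPGroup p Q ∧ Q ≠ ⊥ ∧ PT W Q := by
  classical
  unfold famP
  rw [Finset.mem_filter, mem_famAll]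
  tauto

section dec

variable (h : Dec p Z V W)
include h

theorem Dec.iSup_le_V {b : ι → Subgroup A} (hb : ∀ i, b i ≤ W i) : (⨆ i, b i) ≤ V :=
  iSup_le fun i => (hb i).trans (h.le' i)

/-- products of p-subgroups of the factors are p-groups -/
theorem Dec.isPGroup_iSup [Fact p.Prime] [Finite ι] {b : ι → Subgroup A} (hb : ∀ i, b i ≤ W i)
    (hp : ∀ i, IsPGroup p (b i)) : IsPGroup p (⨆ i, b i : Subgroup A) := by
  classical
  have := Fintype.ofFinite ι
  rw [← Finset.sup_univ_eq_iSup]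
  have key : ∀ S : Finset ι, IsPGroup p (S.sup b : Subgroup A) := by
    intro S
    induction S using Finset.induction_on with
    | empty => rw [Finset.sup_empty]; exact IsPGroup.of_bot
    | insert a S ha ih =>
      rw [Finset.sup_insert]
      apply FamAllAux.isPGroup_sup _ (hp a) ih
      -- the others centralize `b a`
      have h1 : S.sup b ≤ Subgroup.centralizer (b a : Set A) := by
        refine Finset.sup_le fun i hi x hx => ?_
        rw [Subgroup.mem_centralizer_iff]
        intro y hy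
        exact h.comm a i (fun h' => ha (h' ▸ hi)) y (hb a hy) x (hb i hx)
      refine h1.trans ?_
      intro x hx
      rw [Subgroup.mem_normalizer_iff]
      have h2 : ∀ y ∈ b a, x * y * x⁻¹ = y := by
        intro y hy
        rw [← Subgroup.mem_centralizer_iff.1 hx y hy]; group
      intro y
      constructor
      · intro hy
        rw [h2 y hy]; exact hy
      · intro hy
        have h3 := h2 _ hy
        have h4 : x * y * x⁻¹ = y := by
          have h5 : x * (x * y * x⁻¹) = (x * y * x⁻¹) * x := by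
            calc x * (x * y * x⁻¹) = x * (x * y * x⁻¹) * x⁻¹ * x := by group
              _ = (x * y * x⁻¹) * x := by rw [h3]
          have h6 : x * (x * y * x⁻¹) = x * y := by rw [h5]; group
          exact mul_left_cancel h6
        rwa [h4] at hy
  exact key _

/-- the projection of a product -/
theorem Dec.iSup_inf [Fact p.Prime] [Finite A] [Finite ι] {b : ι → Subgroup A}
    (hb : ∀ i, b i ≤ W i) (hp : ∀ i, IsPGroup p (b i)) (i : ι) :
    (⨆ j, b j) ⊓ W i = b i := by
  apply le_antisymm _ (le_inf (le_iSup b i) (hb i))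
  intro y hy
  have h1 : (⨆ j, b j) ≤ b i ⊔ ⨆ (j) (_ : j ≠ i), b j := by
    refine iSup_le fun j => ?_
    by_cases hj : j = i
    · rw [hj]; exact le_sup_left
    · exact (le_iSup₂_of_le (f := fun j (_ : j ≠ i) => b j) j hj le_rfl).trans le_sup_right
  obtain ⟨β, hβ, γ, hγ, rfl⟩ := mem_sup_of_commute (P := b i) (R := ⨆ (j) (_ : j ≠ i), b j) (by
    intro x hx z hz
    have h2 := commute_iSup (S := fun _ : Unit => b i) (T := fun j => ⨆ (_ : j ≠ i), b j)
      (fun _ j x hx z hz => by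
        refine commute_iSup (S := fun _ : Unit => b i) (T := fun _ : j ≠ i => b j)
          (fun _ hj x hx z hz => ?_) x (by simpa using hx) z hz
        exact h.comm i j (Ne.symm hj) x (hb i hx) z (hb j hz)) x (by simpa using hx) z hz
    exact h2.symm) y (h1 hy.1)
  have hγW : γ ∈ W i := by
    have e : γ = β⁻¹ * (β * γ) := by group
    rw [e]
    exact (W i).mul_mem ((W i).inv_mem (hb i hβ)) hy.2
  have hγV : γ ∈ ⨆ (j) (_ : j ≠ i), W j :=
    (iSup_mono fun j => iSup_mono fun _ => hb j) hγ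
  have hγZ : γ ∈ Z := h.indep i ⟨hγW, hγV⟩
  have hγp : γ ∈ ⨆ j, b j := (iSup_le fun j => iSup_le fun _ => le_iSup b j : _ ≤ ⨆ j, b j) hγ
  obtain ⟨n, hn⟩ := h.isPGroup_iSup hb hp ⟨γ, hγp⟩
  have hγ1 : γ = 1 := eq_one_of_pow h.pr hγZ (n := n) (congrArg Subtype.val hn)
  rw [hγ1, mul_one]
  exact hβ

theorem Dec.pt_iSup [Fact p.Prime] [Finite A] [Finite ι] {b : ι → Subgroup A}
    (hb : ∀ i, b i ≤ W i) (hp : ∀ i, IsPGroup p (b i)) : PT W (⨆ i, b i) := by
  apply PT.of_le
  exact iSup_mono fun i => (h.iSup_inf hb hp i).symm.le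

omit h in
/-- an element that normalises all `Q ⊓ W i` normalises `Q` -/
theorem PT.mem_normalizer {Q : Subgroup A} (hQ : PT W Q) {x : A}
    (hx : ∀ i, x ∈ Subgroup.normalizer ((Q ⊓ W i : Subgroup A) : Set A)) :
    x ∈ Subgroup.normalizer (Q : Set A) := by
  rw [← cg_eq_self_iff]
  conv_lhs => rw [hQ]
  conv_rhs => rw [hQ]
  rw [cg_iSup]
  exact iSup_congr fun i => cg_eq_self_iff.2 (hx i)

omit h in
theorem mem_normalizer_inf {Q R : Subgroup A} {x : A} (hQ : x ∈ Subgroup.normalizer (Q : Set A))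
    (hR : x ∈ Subgroup.normalizer (R : Set A)) :
    x ∈ Subgroup.normalizer ((Q ⊓ R : Subgroup A) : Set A) := by
  rw [Subgroup.mem_normalizer_iff] at *
  intro y
  constructor
  · exact fun hy => ⟨(hQ y).1 hy.1, (hR y).1 hy.2⟩
  · exact fun hy => ⟨(hQ y).2 hy.1, (hR y).2 hy.2⟩

/-- `famP` is a product, also for the subgroups normalised by a set `S` of elements -/
theorem Dec.prSys [Fact p.Prime] [Fintype A] [Finite ι] (S : Set A)
    (hS : ∀ x ∈ S, ∀ i, x ∈ Subgroup.normalizer (W i : Set A))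
    (D : Finset (Subgroup A)) (E : ι → Finset (Subgroup A))
    (hD : ∀ Q, Q ∈ D ↔ Q ∈ famP p V W ∧ ∀ x ∈ S, x ∈ Subgroup.normalizer (Q : Set A))
    (hE : ∀ i Q, Q ∈ E i ↔ Q ∈ famAll p (W i) ∧ ∀ x ∈ S, x ∈ Subgroup.normalizer (Q : Set A)) :
    PrSys D E (fun i Q => Q ⊓ W i) := by
  refine ⟨?_, ?_, ?_, ?_, ?_⟩
  · intro Q hQ R hR
    have hQ' := (mem_famP.1 ((hD Q).1 hQ).1).2.2.2
    have hR' := (mem_famP.1 ((hD R).1 hR).1).2.2.2
    constructor
    · exact fun h1 i => inf_le_inf_right _ h1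
    · intro h1
      rw [hQ', hR']
      exact iSup_mono h1
  · intro Q hQ i
    by_cases h0 : Q ⊓ W i = ⊥
    · exact Or.inl h0
    · right
      obtain ⟨h1, h2⟩ := (hD Q).1 hQ
      rw [hE, mem_famAll]
      refine ⟨⟨inf_le_right, (mem_famP.1 h1).2.1.to_le inf_le_left, h0⟩, fun x hx => ?_⟩
      exact mem_normalizer_inf (h2 x hx) (hS x hx i)
  · intro Q hQ
    by_contra hcon
    push Not at hcon
    obtain ⟨-, -, h1, h2⟩ := mem_famP.1 ((hD Q).1 hQ).1
    apply h1
    rw [h2]
    rw [iSup_eq_bot]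
    exact hcon
  · intro i hi
    rw [hE, mem_famAll] at hi
    exact hi.1.2.2 rfl
  · intro b hb hne
    have hb1 : ∀ i, b i ≤ W i := by
      intro i
      rcases hb i with h1 | h1
      · rw [h1]; exact bot_le
      · exact (mem_famAll.1 ((hE i _).1 h1).1).1
    have hb2 : ∀ i, IsPGroup p (b i) := by
      intro i
      rcases hb i with h1 | h1
      · rw [h1]; exact IsPGroup.of_bot
      · exact (mem_famAll.1 ((hE i _).1 h1).1).2.1
    refine ⟨⨆ i, b i, ?_, h.iSup_inf hb1 hb2⟩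
    rw [hD, mem_famP]
    refine ⟨⟨Dec.iSup_le_V h hb1, h.isPGroup_iSup hb1 hb2, ?_, h.pt_iSup hb1 hb2⟩, ?_⟩
    · intro h1
      obtain ⟨i, hi⟩ := hne
      apply hi
      rw [iSup_eq_bot] at h1
      exact h1 i
    · intro x hx
      rw [← cg_eq_self_iff, cg_iSup]
      refine iSup_congr fun i => cg_eq_self_iff.2 ?_
      rcases hb i with h1 | h1
      · rw [h1]
        have : (⊥ : Subgroup A).Normal := inferInstance
        rw [Subgroup.normalizer_eq_top]
        exact Subgroup.mem_top x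
      · exact ((hE i _).1 h1).2 x hx

/-- a subgroup of `V` is contained in the product of its projections -/
theorem Dec.le_of_proj [Finite ι] {H : Subgroup A} (hH : H ≤ V) {U : ι → Subgroup A}
    (hU : ∀ i, U i ≤ W i)
    (hp : ∀ i, ∀ w ∈ W i, ∀ u ∈ Z ⊔ ⨆ (j) (_ : j ≠ i), W j, w * u ∈ H → w ∈ U i) :
    H ≤ Z ⊔ ⨆ i, U i := by
  classical
  have := Fintype.ofFinite ι
  intro r hr
  have key : ∀ S : Finset ι, ∃ a ∈ (⨆ (i) (_ : i ∈ S), U i), ∃ b ∈ Z ⊔ ⨆ (i) (_ : i ∉ S), W i,
      a * b = r := by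
    intro S
    induction S using Finset.induction_on with
    | empty =>
      refine ⟨1, Subgroup.one_mem _, r, ?_, one_mul r⟩
      have h1 : V ≤ Z ⊔ ⨆ (i) (_ : i ∉ (∅ : Finset ι)), W i := by
        conv_lhs => rw [← h.sup]
        refine le_trans (iSup_le fun i => ?_) le_sup_right
        exact le_iSup₂_of_le (f := fun i (_ : i ∉ (∅ : Finset ι)) => W i) i
          (Finset.notMem_empty i) le_rfl
      exact h1 (hH hr)
    | insert i S hi ih =>
      obtain ⟨a, ha, b, hb, hab⟩ := ih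
      have h1 : Z ⊔ (⨆ (j) (_ : j ∉ S), W j) ≤ W i ⊔ (Z ⊔ ⨆ (j) (_ : j ∉ insert i S), W j) := by
        refine sup_le (le_sup_left.trans le_sup_right) (iSup_le fun j => iSup_le fun hj => ?_)
        by_cases hji : j = i
        · rw [hji]; exact le_sup_left
        · refine le_trans ?_ le_sup_right
          refine le_trans ?_ le_sup_right
          exact le_iSup₂_of_le (f := fun j (_ : j ∉ insert i S) => W j) j
            (fun h' => (Finset.mem_insert.1 h').elim hji hj) le_rfl
      have h2 : Z ⊔ (⨆ (j) (_ : j ∉ insert i S), W j) ≤ Z ⊔ ⨆ (j) (_ : j ≠ i), W j := by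
        refine sup_le_sup le_rfl (iSup_le fun j => iSup_le fun hj => ?_)
        exact le_iSup₂_of_le (f := fun j (_ : j ≠ i) => W j) j
          (fun h' => hj (h' ▸ Finset.mem_insert_self i S)) le_rfl
      have h3 : (⨆ (j) (_ : j ∈ S), U j) ≤ Z ⊔ ⨆ (j) (_ : j ≠ i), W j := by
        refine le_trans (iSup_le fun j => iSup_le fun hj => ?_) le_sup_right
        exact le_iSup₂_of_le (f := fun j (_ : j ≠ i) => W j) j
          (fun h' => hi (h' ▸ hj)) (hU j)
      have hcom : ∀ w ∈ W i, ∀ u ∈ Z ⊔ ⨆ (j) (_ : j ≠ i), W j, w * u = u * w := by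
        intro w hw u hu
        have h4 : Z ⊔ (⨆ (j) (_ : j ≠ i), W j) ≤ Subgroup.centralizer {w} := by
          refine sup_le (fun z hz => ?_) (iSup_le fun j => iSup_le fun hj z hz => ?_)
          · rw [Subgroup.mem_centralizer_iff]
            rintro v hv
            rw [Set.mem_singleton_iff] at hv
            rw [hv]
            exact (h.zcomm hz w).symm
          · rw [Subgroup.mem_centralizer_iff]
            rintro v hv
            rw [Set.mem_singleton_iff] at hv
            rw [hv]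
            exact h.comm i j (Ne.symm hj) w hw z hz
        exact Subgroup.mem_centralizer_iff.1 (h4 hu) w rfl
      obtain ⟨w, hw, b', hb', hwb⟩ := mem_sup_of_commute (fun y hy z hz =>
        (hcom y hy z (h2 hz)).symm) b (h1 hb)
      have hwU : w ∈ U i := by
        apply hp i w hw (a * b') (Subgroup.mul_mem _ (h3 ha) (h2 hb'))
        have e : w * (a * b') = r := by
          rw [← hab, ← hwb, ← mul_assoc, hcom w hw a (h3 ha), mul_assoc]
        rw [e]
        exact hr
      refine ⟨a * w, Subgroup.mul_mem _ ?_ ?_, b', hb', ?_⟩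
      · have h5 : (⨆ (j) (_ : j ∈ S), U j) ≤ ⨆ (j) (_ : j ∈ insert i S), U j := by
          refine iSup_le fun j => iSup_le fun hj => ?_
          exact le_iSup₂_of_le (f := fun j (_ : j ∈ insert i S) => U j) j
            (Finset.mem_insert_of_mem hj) le_rfl
        exact h5 ha
      · have h5 : U i ≤ ⨆ (j) (_ : j ∈ insert i S), U j :=
          le_iSup₂_of_le (f := fun j (_ : j ∈ insert i S) => U j) i
            (Finset.mem_insert_self i S) le_rfl
        exact h5 hwU
      · rw [mul_assoc, hwb, hab]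
  obtain ⟨a, ha, b, hb, rfl⟩ := key Finset.univ
  have h6 : Z ⊔ (⨆ (i) (_ : i ∉ (Finset.univ : Finset ι)), W i) ≤ Z := by
    refine sup_le le_rfl (iSup_le fun i => iSup_le fun hi => ?_)
    exact absurd (Finset.mem_univ i) hi
  refine Subgroup.mul_mem _ ?_ ((le_sup_left : Z ≤ _) (h6 hb))
  have h7 : (⨆ (i) (_ : i ∈ (Finset.univ : Finset ι)), U i) ≤ ⨆ i, U i :=
    iSup_le fun i => iSup_le fun _ => le_iSup U i
  exact (le_sup_right : (⨆ i, U i) ≤ _) (h7 ha)

/-- `Z ⊔ ` the other factors meets `W i` in `Z` -/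
theorem Dec.mem_Z [Finite ι] {i : ι} {w : A} (hw : w ∈ W i)
    (hw' : w ∈ Z ⊔ ⨆ (j) (_ : j ≠ i), W j) : w ∈ Z := by
  have h1 := h.inf_eq {j | j = i}
  have h2 : w ∈ (Z ⊔ (⨆ (j) (_ : j ∈ {j | j = i}), W j)) ⊓
      (Z ⊔ (⨆ (j) (_ : j ∉ {j | j = i}), W j)) := by
    refine ⟨(le_sup_right : _ ≤ Z ⊔ (⨆ (j) (_ : j ∈ {j | j = i}), W j)) ?_, hw'⟩
    have h3 : W i ≤ ⨆ (j) (_ : j ∈ {j | j = i}), W j :=
      le_iSup₂_of_le (f := fun j (_ : j ∈ {j | j = i}) => W j) i rfl le_rfl
    exact h3 hw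
  rwa [h1] at h2

theorem Dec.comm_others (i : ι) : ∀ w ∈ W i, ∀ u ∈ Z ⊔ ⨆ (j) (_ : j ≠ i), W j, w * u = u * w := by
  intro w hw u hu
  have h4 : Z ⊔ (⨆ (j) (_ : j ≠ i), W j) ≤ Subgroup.centralizer {w} := by
    refine sup_le (fun z hz => ?_) (iSup_le fun j => iSup_le fun hj z hz => ?_)
    · rw [Subgroup.mem_centralizer_iff]
      rintro v hv
      rw [Set.mem_singleton_iff] at hv
      rw [hv]
      exact (h.zcomm hz w).symm
    · rw [Subgroup.mem_centralizer_iff]
      rintro v hv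
      rw [Set.mem_singleton_iff] at hv
      rw [hv]
      exact h.comm i j (Ne.symm hj) w hw z hz
  exact Subgroup.mem_centralizer_iff.1 (h4 hu) w rfl

end dec

end Pool.Agent.Lib.P0c8ca5.Jj
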